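import Mathlib

/-!
The action of a group on the classes of measurable sections of a measurable linear cocycle.
-/

open MeasureTheory Filter Set Topology

set_option linter.unusedSectionVars false

noncomputable section

namespace Pool.Agent.P.MP_d483fb_an.Z.MS

/-- An ergodic measure preserving action of `G`. -/
structure GErg (G : Type) {X : Type} [Group G] [MeasurableSpace X] [MulAction G X]
    (μ : Measure X) : Prop where
  mp : ∀ g : G, MeasurePreserving (fun x : X => g • x) μ μ
  erg : ∀ s : Set X, MeasurableSet s → (∀ g : G, (fun x => g • x) ⁻¹' s =ᵐ[μ] s) →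
    EventuallyConst s (ae μ)

/-- A measurable linear cocycle over a measure preserving action. -/
structure Co (G : Type) {X : Type} [Group G] [MeasurableSpace G] [MeasurableSpace X]
    [MulAction G X] (μ : Measure X) (k V : Type) [NontriviallyNormedField k]
    [NormedAddCommGroup V] [NormedSpace k V] where
  c : G → X → V →L[k] V
  mp : ∀ g : G, MeasurePreserving (fun x : X => g • x) μ μ
  meas : StronglyMeasurable fun p : G × X => c p.1 p.2
  one : ∀ x, c 1 x = 1
  mul : ∀ g h x, c (g * h) x = c g (h • x) * c h x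

namespace Co

variable {G X k V : Type} [Group G] [MeasurableSpace G] [MeasurableSpace X] [MulAction G X]
  {μ : Measure X} [NontriviallyNormedField k] [NormedAddCommGroup V] [NormedSpace k V]
  (C : Co G μ k V)

theorem meas_c (g : G) : StronglyMeasurable (C.c g) :=
  C.meas.comp_measurable (g := fun x : X => (g, x)) measurable_prodMk_left

include C in
theorem ae_smul {p : X → Prop} (g : G) (h : ∀ᵐ x ∂μ, p x) : ∀ᵐ x ∂μ, p (g • x) :=
  (C.mp g).quasiMeasurePreserving.ae h

include C in
theorem ae_smul_iff {p : X → Prop} (g : G) : (∀ᵐ x ∂μ, p (g • x)) ↔ ∀ᵐ x ∂μ, p x :=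
  ⟨fun h => by simpa using C.ae_smul (p := fun x => p (g • x)) g⁻¹ h, C.ae_smul g⟩

theorem inv_apply (g : G) (x : X) (v : V) : C.c g⁻¹ (g • x) (C.c g x v) = v := by
  have := congrArg (fun L : V →L[k] V => L v) (C.mul g⁻¹ g x)
  simpa [C.one] using this.symm

theorem injective (g : G) (x : X) : Function.Injective (C.c g x) :=
  Function.LeftInverse.injective (C.inv_apply g x)

theorem aesm (g : G) {f : X → V} (hf : AEStronglyMeasurable f μ) :
    AEStronglyMeasurable (fun x => C.c g (g⁻¹ • x) (f (g⁻¹ • x))) μ := by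
  have h1 : AEStronglyMeasurable (fun x => (C.c g x, f x)) μ :=
    (C.meas_c g).aestronglyMeasurable.prodMk hf
  have h2 : Continuous fun p : (V →L[k] V) × V => p.1 p.2 := by fun_prop
  exact (h2.comp_aestronglyMeasurable h1).comp_quasiMeasurePreserving
    (C.mp g⁻¹).quasiMeasurePreserving

/-- The image of a section. -/
def act (g : G) (f : X →ₘ[μ] V) : X →ₘ[μ] V :=
  AEEqFun.mk (fun x => C.c g (g⁻¹ • x) (f (g⁻¹ • x))) (C.aesm g f.aestronglyMeasurable)

theorem act_ae (g : G) (f : X →ₘ[μ] V) : ∀ᵐ x ∂μ, C.c g x (f x) = C.act g f (g • x) := by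
  filter_upwards [C.ae_smul g (AEEqFun.coeFn_mk _ (C.aesm g f.aestronglyMeasurable))] with x hx
  rw [act, hx, inv_smul_smul]

theorem act_eq_iff {g : G} {f f' : X →ₘ[μ] V} :
    C.act g f = f' ↔ ∀ᵐ x ∂μ, C.c g x (f x) = f' (g • x) := by
  refine ⟨fun h => h ▸ C.act_ae g f, fun h => AEEqFun.ext ((C.ae_smul_iff g).1 ?_)⟩
  filter_upwards [h, C.act_ae g f] with x h1 h2
  rw [← h1, h2]

/-- The action on sections. -/
def rep : G →* Module.End k (X →ₘ[μ] V) where
  toFun g :=
    { toFun := C.act g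
      map_add' := fun f f' => C.act_eq_iff.2 (by
        filter_upwards [C.act_ae g f, C.act_ae g f', AEEqFun.coeFn_add f f',
          C.ae_smul g (AEEqFun.coeFn_add (C.act g f) (C.act g f'))] with x h1 h2 h3 h4
        rw [h4, h3, Pi.add_apply, Pi.add_apply, map_add, h1, h2])
      map_smul' := fun t f => C.act_eq_iff.2 (by
        filter_upwards [C.act_ae g f, AEEqFun.coeFn_smul t f,
          C.ae_smul g (AEEqFun.coeFn_smul t (C.act g f))] with x h1 h3 h4
        rw [RingHom.id_apply, h4, h3, Pi.smul_apply, Pi.smul_apply, map_smul, h1]) }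
  map_one' := LinearMap.ext fun f => C.act_eq_iff.2 (by simp [C.one])
  map_mul' g h := LinearMap.ext fun f => C.act_eq_iff.2 (by
    filter_upwards [C.act_ae h f, C.ae_smul h (C.act_ae g (C.act h f))] with x h1 h2
    rw [C.mul, mul_apply_eq_comp, h1, h2, mul_smul]
    rfl)

theorem rep_ae (g : G) (f : X →ₘ[μ] V) : ∀ᵐ x ∂μ, C.c g x (f x) = C.rep g f (g • x) :=
  C.act_ae g f

theorem rep_eq_iff {g : G} {f f' : X →ₘ[μ] V} :
    C.rep g f = f' ↔ ∀ᵐ x ∂μ, C.c g x (f x) = f' (g • x) := C.act_eq_iff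

end Co

/-- Finite linear combinations of classes. -/
theorem coeFn_comb {X k V ι : Type} [MeasurableSpace X] {μ : Measure X} [NontriviallyNormedField k]
    [NormedAddCommGroup V] [NormedSpace k V] [Fintype ι] (v : ι → k) (w : ι → X →ₘ[μ] V) :
    ∀ᵐ x ∂μ, (∑ i, v i • w i : X →ₘ[μ] V) x = ∑ i, v i • w i x := by
  have h : ∀ s : Finset ι, ∀ᵐ x ∂μ, (∑ i ∈ s, v i • w i : X →ₘ[μ] V) x = ∑ i ∈ s, v i • w i x := by
    intro s
    classical
    induction s using Finset.induction_on with
    | empty =>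
      simp only [Finset.sum_empty]
      exact AEEqFun.coeFn_zero
    | insert i s hi ih =>
      simp only [Finset.sum_insert hi]
      filter_upwards [ih, AEEqFun.coeFn_add (v i • w i) (∑ i ∈ s, v i • w i),
        AEEqFun.coeFn_smul (v i) (w i)] with x h1 h2 h3
      rw [h2, Pi.add_apply, h1, h3, Pi.smul_apply]
  exact h _

theorem comb_eq_iff {X k V ι : Type} [MeasurableSpace X] {μ : Measure X}
    [NontriviallyNormedField k] [NormedAddCommGroup V] [NormedSpace k V] [Fintype ι] {v : ι → k}
    {w : ι → X →ₘ[μ] V} {f : X →ₘ[μ] V} :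
    f = ∑ i, v i • w i ↔ ∀ᵐ x ∂μ, f x = ∑ i, v i • w i x :=
  ⟨fun h => h ▸ coeFn_comb v w, fun h => AEEqFun.ext (by
    filter_upwards [h, coeFn_comb v w] with x h1 h2
    rw [h1, h2])⟩

end Pool.Agent.P.MP_d483fb_an.Z.MS
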