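import Pool.Agent.P.MP_d483fb_an.Z.MS.AlgB
import Pool.Agent.P.MP_d483fb_an.Z.MS.Rep

/-!
Vanishing of the exponents on an element that is conjugate to its inverse.
-/

open scoped Matrix Topology
open MeasureTheory Filter Set

set_option linter.unusedSectionVars false

noncomputable section

namespace Pool.Agent.P.MP_d483fb_an.Z.MS

variable {G X E W : Type} [Group G] [MeasurableSpace G] [MeasurableSpace X] [MulAction G X]
  {μ : Measure X} [IsProbabilityMeasure μ] [NormedAddCommGroup E] [NormedSpace ℝ E]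
  [FiniteDimensional ℝ E] [SeminormedAddCommGroup W]

/-- Forget the joint measurability. -/
def Co.toCc (C : Co G μ ℝ E) : Cc G E μ := ⟨C.c, C.one, C.mul, C.meas_c, C.mp⟩

/-- The image of an Oseledets projection under a Weyl element is orthogonal to it. -/
theorem orth_weyl (C : Co G μ ℝ E) (a : W → G) (S : Os.Sys W X μ)
    (hS : ∀ t x, S.act t x = a t • x) {ι : Type} [Fintype ι]
    (o : Os.OseA S (fun t x => C.c (a t) x) ι) (i : ι) (s₀ : W) (w : G)
    (hw : ∀ j : ℕ, w * a (j • s₀) * w⁻¹ = a (j • -s₀)) (hpos : 0 < o.lam i s₀) :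
    ∀ᵐ x ∂μ, C.toCc.act w (o.P i) x * o.P i x = 0 := by
  set L := o.lam i s₀ with hL
  have hε : 0 < L / (3 * ‖s₀‖ + 1) := by positivity
  set ε := L / (3 * ‖s₀‖ + 1) with hεd
  have hεL : 3 * (ε * ‖s₀‖) ≤ L := by
    have h1 : ε * (3 * ‖s₀‖ + 1) = L := div_mul_cancel₀ _ (by positivity)
    nlinarith
  obtain ⟨q, -, -, hq, hest⟩ := o.est ε hε
  filter_upwards [o.ae0, C.ae_smul w⁻¹ o.ae0,
    ae_cluster (S.mp (-s₀)) (C.meas_c w⁻¹).norm] with x hx hy hcl
  refine ContinuousLinearMap.ext fun v => ?_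
  set y := w⁻¹ • x with hyd
  set v' := o.P i x v with hv'
  set u := o.P i y (C.c w⁻¹ x v') with hu
  have key : u = 0 := by
    set M := ‖C.c w⁻¹ x‖ + 1 with hM
    have h1 : ∃ᶠ j : ℕ in atTop, ‖C.c w⁻¹ ((S.act (-s₀))^[j] x)‖ < M :=
      mapClusterPt_iff_frequently.1 hcl _ (Iio_mem_nhds (lt_add_one _))
    have h2 : ∀ j : ℕ, ‖C.c w⁻¹ ((S.act (-s₀))^[j] x)‖ < M →
        ‖u‖ ≤ Real.exp (q y + (q y + o.B) + q x) * M * ‖v'‖ * Real.exp (-(L * j)) := by
      intro j hj
      rw [S.iter, hS] at hj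
      have n1 : ‖j • s₀‖ ≤ j * ‖s₀‖ := norm_nsmul_le
      have n2 : ‖j • -s₀‖ ≤ j * ‖s₀‖ := norm_neg s₀ ▸ norm_nsmul_le
      have l1 : o.lam i (j • s₀) = j * L := by rw [map_nsmul, nsmul_eq_mul]
      have l2 : o.lam i (j • -s₀) = -(j * L) := by rw [map_nsmul, map_neg, nsmul_eq_mul, mul_neg]
      have e1 : a (j • s₀) * w⁻¹ = w⁻¹ * a (j • -s₀) := by rw [← hw]; group
      have e2 : C.c (a (j • s₀)) y (C.c w⁻¹ x v') =
          C.c w⁻¹ (a (j • -s₀) • x) (C.c (a (j • -s₀)) x v') := by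
        have := congrArg (fun T : E →L[ℝ] E => T v') ((C.mul _ _ x).symm.trans
          ((congrArg (fun g => C.c g x) e1).trans (C.mul _ _ x)))
        exact this
      have b1 := ((hest y hy i).2 (j • s₀) u (o.P_mem y hy i _)).2
      have b2 := (hest _ (o.inv0 (j • s₀) y hy) i).1
      have b3 := hq (j • s₀) y hy
      have b4 := ((hest x hx i).2 (j • -s₀) v' (o.P_mem x hx i _)).1
      have b5 : ‖C.c (a (j • s₀)) y u‖ ≤ Real.exp (q y + ε * ‖j • s₀‖ + o.B) *
          (M * (Real.exp (q x + o.lam i (j • -s₀) + ε * ‖j • -s₀‖) * ‖v'‖)) := by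
        rw [hu, ← o.P_inv y hy i (j • s₀), e2]
        refine (ContinuousLinearMap.le_opNorm _ _).trans (mul_le_mul
          (b2.trans (Real.exp_le_exp.2 b3)) ?_ (norm_nonneg _) (Real.exp_nonneg _))
        exact (ContinuousLinearMap.le_opNorm _ _).trans
          (mul_le_mul hj.le b4 (norm_nonneg _) (by positivity))
      refine b1.trans ((mul_le_mul_of_nonneg_left b5 (Real.exp_nonneg _)).trans ?_)
      have e3 : ∀ A B C' : ℝ, Real.exp A * (Real.exp B * (M * (Real.exp C' * ‖v'‖))) =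
          Real.exp (A + B + C') * (M * ‖v'‖) := fun A B C' => by
        rw [Real.exp_add, Real.exp_add]
        ring
      have e4 : Real.exp (q y + (q y + o.B) + q x) * M * ‖v'‖ * Real.exp (-(L * j)) =
          Real.exp (q y + (q y + o.B) + q x + -(L * j)) * (M * ‖v'‖) := by
        rw [Real.exp_add _ (-(L * j))]
        ring
      rw [e3, e4, l1, l2]
      refine mul_le_mul_of_nonneg_right (Real.exp_le_exp.2 ?_) (by positivity)
      have c1 := mul_le_mul_of_nonneg_left n1 hε.le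
      have c2 := mul_le_mul_of_nonneg_left n2 hε.le
      have c3 := mul_le_mul_of_nonneg_left hεL (Nat.cast_nonneg (α := ℝ) j)
      nlinarith
    have h3 : Tendsto (fun j : ℕ => Real.exp (q y + (q y + o.B) + q x) * M * ‖v'‖ *
        Real.exp (-(L * j))) atTop (𝓝 0) := by
      have := (Real.tendsto_exp_neg_atTop_nhds_zero.comp
        (tendsto_natCast_atTop_atTop.const_mul_atTop hpos)).const_mul
        (Real.exp (q y + (q y + o.B) + q x) * M * ‖v'‖)
      simpa using this
    exact norm_le_zero_iff.1 (ge_of_tendsto_of_frequently h3 (h1.mono h2))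
  change C.c w y u = 0
  rw [key, map_zero]

variable [TopologicalSpace G] [IsTopologicalGroup G] [FirstCountableTopology G] [MeasurableInv G]
  [MeasurableSMul₂ G X]

/-- An invariant section of the endomorphism bundle is finite and continuous. -/
theorem fc_of_ms (C : Co G μ ℝ E) (a : W → G) (hMS : SR.MS μ a) {p : X → E →L[ℝ] E}
    (hp : StronglyMeasurable p)
    (hinv : ∀ t, ∀ᵐ x ∂μ, C.c (a t) x * p x = p (a t • x) * C.c (a t) x) :
    C.toCc.Fc (cl μ p) := by
  have hm1 : StronglyMeasurable fun z : G × X => C.c z.1⁻¹ (z.1 • z.2) :=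
    C.meas.comp_measurable (g := fun z : G × X => (z.1⁻¹, z.1 • z.2))
      (measurable_fst.inv.prodMk (measurable_fst.smul measurable_snd))
  have hm2 : Continuous fun z : (E →L[ℝ] E) × (E →L[ℝ] E) =>
      ContinuousLinearMap.mulLeftRight ℝ (E →L[ℝ] E) z.1 z.2 := by fun_prop
  have hm := hm2.comp_stronglyMeasurable (C.meas.prodMk hm1)
  obtain ⟨n, w, τ, b, hτ, -, heq, -, hb⟩ := hMS ℝ (E →L[ℝ] E)
    (fun g x => ContinuousLinearMap.mulLeftRight ℝ (E →L[ℝ] E) (C.c g x) (C.c g⁻¹ (g • x))) hm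
    (fun x => ContinuousLinearMap.ext fun T => by simp [C.one])
    (fun g h x => ContinuousLinearMap.ext fun T => by
      simp only [ContinuousLinearMap.mulLeftRight_apply, mul_apply_eq_comp, mul_inv_rev, C.mul,
        mul_smul, inv_smul_smul, mul_assoc]) p hp
    (fun t => (hinv t).mono fun x hx => by
      rw [ContinuousLinearMap.mulLeftRight_apply, hx, mul_assoc]
      exact (congrArg _ (C.toCc.mul_inv (a t) x)).trans (mul_one _))
  have h1 : ∀ g j, C.toCc.pi g (cl μ (w j)) = ∑ i, τ g i j • cl μ (w i) := by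
    intro g j
    have h2 : cl μ (C.toCc.act g (w j)) = cl μ (∑ i, τ g i j • w i) := by
      refine cl_eq.2 ((C.ae_smul_iff g).1 ((heq g j).mono fun x hx => ?_))
      rw [Cc.act_smul]
      simpa [Co.toCc] using hx
    rw [Cc.pi_cl, h2]
    simp
  have h3 : cl μ p = ∑ j, b j • cl μ (w j) := by
    have h4 : cl μ p = cl μ (∑ j, b j • w j) := cl_eq.2 (hb.mono fun x hx => by simpa using hx)
    rw [h4]
    simp
  refine ⟨Fin n × Fin n, inferInstance, fun z => cl μ (w z.2), fun z g => b z.1 * τ g z.2 z.1,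
    fun z => continuous_const.mul (hτ.matrix_elem _ _), fun g => ?_⟩
  rw [h3, map_sum, Fintype.sum_prod_type]
  simp only [map_smul, h1, Finset.smul_sum, smul_smul]

/-- The exponents vanish on an element whose multiples are conjugate to their inverses. -/
theorem lam_eq_zero {n m : ℕ} (D : ExpData G n) (hv : D.ltV m) (hE : Module.finrank ℝ E ≤ m + 1)
    (hgen : SR.Gen G) {h : G} (he : Ergodic (fun x : X => h • x) μ) (C : Co G μ ℝ E) (a : W → G)
    (hMS : SR.MS μ a) (S : Os.Sys W X μ) (hS : ∀ t x, S.act t x = a t • x) {ι : Type} [Fintype ι]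
    (o : Os.OseA S (fun t x => C.c (a t) x) ι) (i : ι) (β : W) (w : G)
    (hw : ∀ j : ℤ, w * a (j • β) * w⁻¹ = a (-(j • β))) : o.lam i β = 0 := by
  have hfc : C.toCc.Fc (cl μ (o.P i)) := fc_of_ms C a hMS (o.measP i) fun t =>
    o.ae0.mono fun x hx => ContinuousLinearMap.ext fun v => by
      rw [← hS]
      exact (o.P_inv x hx i t v).symm
  have hpp : ∀ᵐ x ∂μ, o.P i x * o.P i x = o.P i x := o.ae0.mono fun x hx =>
    ContinuousLinearMap.ext fun v => o.P_self x hx i _ (o.P_mem x hx i v)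
  have key : ∀ s₀ : W, (∀ j : ℕ, w * a (j • s₀) * w⁻¹ = a (j • -s₀)) → o.lam i s₀ ≤ 0 := by
    intro s₀ hs
    by_contra hpos
    have h1 := C.toCc.idem_ae_zero D hv hE hgen he (o.measP i) hfc hpp w
      (orth_weyl C a S hS o i s₀ w hs (not_le.1 hpos))
    obtain ⟨x, hx, hx0⟩ := (o.ae0.and h1).exists
    have h2 : o.D i x = ⊥ := (Submodule.eq_bot_iff _).2 fun v hv => by
      rw [← o.P_self x hx i v hv, hx0]
      rfl
    have h3 := o.rank x hx i
    rw [h2, finrank_bot] at h3
    exact (o.d_pos i).ne h3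
  have h1 := key β fun j => by simpa using hw j
  have h2 := key (-β) fun j => by simpa using hw (-j)
  rw [map_neg] at h2
  linarith

end Pool.Agent.P.MP_d483fb_an.Z.MS
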