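import Pool.Agent.P.MP_d483fb_an.Z.MS.DHom

/-!
A group with `m ≤ v(G)` that acts by automorphisms on an algebra of `m × m` matrices fixes all
annihilators of vectors in simple subquotients; hence it cannot move an idempotent to an orthogonal
one.
-/

open scoped Matrix Matrix.Norms.Operator Topology
open NormedSpace Filter Set

set_option linter.unusedSectionVars false

noncomputable section

namespace Pool.Agent.P.MP_d483fb_an.Z.MS

/-- In an Artinian ring a left ideal has a right unit modulo the radical. -/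
theorem exists_unit_mod_jac {A : Type*} [Ring A] [IsArtinianRing A] (L : Ideal A) :
    ∃ e ∈ L, ∀ l ∈ L, l - l * e ∈ Ring.jacobson A := by
  have hs : IsSemisimpleModule A (A ⧸ Module.jacobson A A) :=
    (IsArtinian.isSemisimpleModule_iff_jacobson A _).2 (Module.jacobson_quotient_jacobson A A)
  set J : Submodule A A := Module.jacobson A A with hJ
  obtain ⟨C, hC⟩ := exists_isCompl (Submodule.map J.mkQ L)
  have h1 : J.mkQ 1 ∈ Submodule.map J.mkQ L ⊔ C := by
    rw [hC.sup_eq_top]
    trivial
  obtain ⟨x, hx, c, hc, hxc⟩ := Submodule.mem_sup.1 h1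
  obtain ⟨e, he, rfl⟩ := Submodule.mem_map.1 hx
  refine ⟨e, he, fun l hl => ?_⟩
  have h2 : J.mkQ (l - l * e) = l • c := by
    have : c = J.mkQ 1 - J.mkQ e := by rw [← hxc]; abel
    rw [this, ← map_sub, ← map_smul, smul_eq_mul, mul_sub, mul_one]
  have h3 : J.mkQ (l - l * e) ∈ Submodule.map J.mkQ L ⊓ C :=
    ⟨Submodule.mem_map_of_mem (L.sub_mem hl (L.mul_mem_left l he)), h2 ▸ C.smul_mem l hc⟩
  rw [hC.inf_eq_bot, Submodule.mem_bot, Submodule.mkQ_apply, Submodule.Quotient.mk_eq_zero] at h3
  exact h3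

/-- The derivative of a curve in a closed subspace. -/
theorem deriv_mem_of_closed {E : Type*} [NormedAddCommGroup E] [NormedSpace ℝ E]
    (L : Submodule ℝ E) (hL : IsClosed (L : Set E)) {f : ℝ → E} {f' : E} {t : ℝ}
    (hf : HasDerivAt f f' t) (h : ∀ s, f s ∈ L) : f' ∈ L := by
  refine hL.mem_of_tendsto (hasDerivAt_iff_tendsto_slope.1 hf) (Eventually.of_forall fun s => ?_)
  rw [slope_def_module]
  exact L.smul_mem _ (L.sub_mem (h s) (h t))

/-- A closed subspace that is invariant under an operator is invariant under its exponential. -/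
theorem exp_apply_mem {E : Type*} [NormedAddCommGroup E] [NormedSpace ℝ E] [CompleteSpace E]
    (L : Submodule ℝ E) (hL : IsClosed (L : Set E)) {T : E →L[ℝ] E} (hT : ∀ x ∈ L, T x ∈ L)
    {x : E} (hx : x ∈ L) : exp T x ∈ L := by
  have h1 : HasSum (fun n : ℕ => ((n.factorial : ℝ)⁻¹) • T ^ n) (exp T) :=
    exp_series_hasSum_exp' (𝕂 := ℝ) T
  have h2 := (ContinuousLinearMap.apply ℝ E x).hasSum h1
  have h3 : ∀ n : ℕ, (T ^ n) x ∈ L := by
    intro n
    induction n with
    | zero => simpa using hx
    | succ n ih =>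
      rw [pow_succ']
      exact hT _ ih
  refine hL.mem_of_tendsto h2 (Eventually.of_forall fun s => L.sum_mem fun n _ => ?_)
  simp only [map_smul, ContinuousLinearMap.apply_apply]
  exact L.smul_mem _ (h3 n)

variable {G : Type} [Group G] [TopologicalSpace G] [IsTopologicalGroup G] {n : ℕ}
  (D : ExpData G n)

section Normed

variable {A : Type} [NormedRing A] [NormedAlgebra ℝ A] [FiniteDimensional ℝ A]

/-- The derivative of an action by automorphisms. -/
theorem exists_deriv_action (sg : G →* (A ≃ₐ[ℝ] A)) (hc : ∀ a, Continuous fun g => sg g a) :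
    ∃ d : D.g →ₗ[ℝ] (A →L[ℝ] A), ∀ (X : D.g) (a : A), sg (D.ex X) a = exp (d X) a := by
  have := FiniteDimensional.complete ℝ A
  let φ : G →* (A →L[ℝ] A) :=
    { toFun := fun g => LinearMap.toContinuousLinearMap (sg g).toLinearMap
      map_one' := by ext a; simp
      map_mul' := by intro g h; ext a; simp }
  obtain ⟨d, hd⟩ := exists_dhom D φ (continuous_clm_apply.2 hc)
  exact ⟨d, fun X a => by rw [← hd]; rfl⟩

/-- The group fixes the annihilators of the vectors of a small simple module. -/
theorem fix_ann {m : ℕ} (hv : D.ltV m) (sg : G →* (A ≃ₐ[ℝ] A))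
    (hc : ∀ a, Continuous fun g => sg g a) {S : Type} [AddCommGroup S] [Module ℝ S] [Module A S]
    [IsScalarTower ℝ A S] [FiniteDimensional ℝ S] [IsSimpleModule A S]
    (hS : Module.finrank ℝ S ≤ m + 1) (v : S) (g : G) (l : A) (hl : l • v = 0) :
    sg g l • v = 0 := by
  have := FiniteDimensional.complete ℝ A
  have : IsArtinianRing A := IsArtinianRing.of_finite ℝ A
  rcases eq_or_ne v 0 with rfl | hv0
  · simp
  obtain ⟨d, hd⟩ := exists_deriv_action D sg hc
  let ev : A →ₗ[ℝ] S := (LinearMap.toSpanSingleton A S v).restrictScalars ℝ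
  have hev : ∀ a, ev a = a • v := fun a => rfl
  let L : Submodule ℝ A := LinearMap.ker ev
  have hL : ∀ a, a ∈ L ↔ a • v = 0 := fun a => Iff.rfl
  have hLc : IsClosed (L : Set A) := L.closed_of_finiteDimensional
  let H : Subgroup G :=
    { carrier := {g | ∀ l ∈ L, sg g l ∈ L ∧ sg g⁻¹ l ∈ L}
      one_mem' := by intro l hl; simpa using hl
      mul_mem' := by
        intro x y hx hy l hl
        rw [mul_inv_rev, map_mul, map_mul]
        exact ⟨(hx _ (hy l hl).1).1, (hy _ (hx l hl).2).2⟩
      inv_mem' := by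
        intro x hx l hl
        rw [inv_inv]
        exact (hx l hl).symm }
  have hHc : IsClosed (H : Set G) := by
    have : (H : Set G) = ⋂ l ∈ L, ((fun g => sg g l) ⁻¹' L ∩ (fun g => sg g⁻¹ l) ⁻¹' L) := by
      ext x
      simp only [mem_iInter]
      rfl
    rw [this]
    exact isClosed_biInter fun l _ =>
      (hLc.preimage (hc l)).inter (hLc.preimage ((hc l).comp continuous_inv))
  by_cases hH : H = ⊤
  · have hg : g ∈ H := hH ▸ Subgroup.mem_top g
    exact (hg l hl).1
  exfalso
  have hlt := hv H hHc hH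
  have hder : ∀ (X : D.g) (a : A), HasDerivAt (fun t : ℝ => sg (D.ex (t • X.1)) a) (d X a) 0 := by
    intro X a
    have h1 := (hasDerivAt_exp_zero' (d X)).clm_apply (hasDerivAt_const (0 : ℝ) a)
    simp only [map_zero, add_zero] at h1
    refine h1.congr_of_eventuallyEq (Eventually.of_forall fun t => ?_)
    have := hd (t • X) a
    rwa [map_smul] at this
  have hmul : ∀ (X : D.g) (a b : A), d X (a * b) = d X a * b + a * d X b := by
    intro X a b
    have h1 := (hder X a).fun_mul (hder X b)
    simp only [zero_smul, D.ex_zero, map_one, AlgEquiv.one_apply] at h1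
    refine (hder X (a * b)).unique (h1.congr_of_eventuallyEq (Eventually.of_forall fun t => ?_))
    exact map_mul _ a b
  have hJ : ∀ j ∈ Ring.jacobson A, j ∈ L := fun j hj =>
    Module.mem_annihilator.1 (IsSemisimpleModule.jacobson_le_annihilator A S hj) v
  have hdJ : ∀ (X : D.g), ∀ j ∈ Ring.jacobson A, d X j ∈ L := by
    intro X j hj
    refine deriv_mem_of_closed L hLc (hder X j) fun s => hJ _ ?_
    have : RingHomSurjective (sg (D.ex (s • X.1))).toRingEquiv.toRingHom :=
      ⟨(sg (D.ex (s • X.1))).surjective⟩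
    exact Ring.le_comap_jacobson (sg (D.ex (s • X.1))).toRingEquiv.toRingHom hj
  obtain ⟨e, he, hel⟩ := exists_unit_mod_jac (LinearMap.ker (LinearMap.toSpanSingleton A S v))
  have he0 : e • v = 0 := he
  let Θ : D.g →ₗ[ℝ] (S ⧸ Submodule.span ℝ {v}) :=
    (Submodule.span ℝ {v}).mkQ ∘ₗ ev ∘ₗ (ContinuousLinearMap.apply ℝ A e).toLinearMap ∘ₗ d
  have hker : ∀ X : D.g, Θ X = 0 → ∀ l ∈ L, d X l ∈ L := by
    intro X hX l hl
    have h1 : d X e • v ∈ Submodule.span ℝ {v} := (Submodule.Quotient.mk_eq_zero _).1 hX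
    obtain ⟨c, hc⟩ := Submodule.mem_span_singleton.1 h1
    have h2 := (hL _).1 (hdJ X _ (hel l hl))
    rw [map_sub, hmul, sub_smul, add_smul, mul_smul, mul_smul, he0, smul_zero, zero_add, ← hc,
      smul_comm l c v, (hL l).1 hl, smul_zero, sub_zero] at h2
    exact h2
  have hle : Submodule.map D.g.subtype (LinearMap.ker Θ) ≤ D.lie H := by
    rintro _ ⟨X, hX, rfl⟩
    refine Submodule.subset_span ⟨X.2, fun t l hl => ?_⟩
    have h1 : ∀ s : ℝ, sg (D.ex (s • X.1)) l ∈ L := by
      intro s
      have := hd (s • X) l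
      rw [Submodule.coe_smul] at this
      rw [this]
      exact exp_apply_mem L hLc (hker _ (by rw [map_smul, show Θ X = 0 from hX, smul_zero])) hl
    have h2 : (D.ex (t • X.1))⁻¹ = D.ex ((-t) • X.1) := by
      rw [inv_eq_iff_mul_eq_one, ← ex_add_smul D X.2, add_neg_cancel, zero_smul, D.ex_zero]
    refine ⟨h1 t, ?_⟩
    rw [Submodule.subtype_apply, h2]
    exact h1 _
  have h1 := Submodule.finrank_mono hle
  rw [Submodule.finrank_map_subtype_eq] at h1
  have h2 := LinearMap.finrank_range_add_finrank_ker Θ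
  have h3 := Submodule.finrank_le (LinearMap.range Θ)
  have h4 := Submodule.finrank_quotient_add_finrank (Submodule.span ℝ {v})
  rw [finrank_span_singleton hv0] at h4
  omega

/-- An idempotent that is moved to an orthogonal idempotent acts as zero on small modules. -/
theorem idem_smul_eq_zero {m : ℕ} (hv : D.ltV m) (sg : G →* (A ≃ₐ[ℝ] A))
    (hc : ∀ a, Continuous fun g => sg g a) (g : G) (p : A) (hp : p * p = p)
    (h0 : sg g p * p = 0) (r : ℕ) :
    ∀ (V : Type) [AddCommGroup V] [Module ℝ V] [Module A V] [IsScalarTower ℝ A V]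
      [FiniteDimensional ℝ V], Module.finrank ℝ V ≤ r → r ≤ m + 1 → ∀ v : V, p • v = 0 := by
  induction r with
  | zero =>
    intro V _ _ _ _ _ hV _ v
    have : Subsingleton V := Module.finrank_zero_iff.1 (Nat.le_zero.1 hV)
    exact Subsingleton.elim _ _
  | succ r ih =>
    intro V _ _ _ _ _ hV hr v
    rcases subsingleton_or_nontrivial V with _ | _
    · exact Subsingleton.elim _ _
    have : IsArtinian A V := isArtinian_of_tower ℝ inferInstance
    obtain ⟨S, hS⟩ := IsAtomic.exists_atom (Submodule A V)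
    have : IsSimpleModule A S := isSimpleModule_iff_isAtom.2 hS
    have : Nontrivial S := IsSimpleModule.nontrivial A S
    have hfS : FiniteDimensional ℝ S := inferInstanceAs (FiniteDimensional ℝ (S.restrictScalars ℝ))
    have hsum : Module.finrank ℝ (V ⧸ S) + Module.finrank ℝ S = Module.finrank ℝ V := by
      rw [← (Submodule.Quotient.restrictScalarsEquiv ℝ S).finrank_eq]
      exact Submodule.finrank_quotient_add_finrank (S.restrictScalars ℝ)
    have hpos : 0 < Module.finrank ℝ S := Module.finrank_pos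
    have : FiniteDimensional ℝ (V ⧸ S) :=
      Module.Finite.equiv (Submodule.Quotient.restrictScalarsEquiv ℝ S)
    have h1 : p • v ∈ S := by
      have := ih (V ⧸ S) (by omega) (by omega) (S.mkQ v)
      rwa [← map_smul, Submodule.mkQ_apply, Submodule.Quotient.mk_eq_zero] at this
    have h2 : ∀ w : S, p • w = 0 := by
      intro w
      have h3 : sg g p • p • w = 0 := by rw [← mul_smul, h0, zero_smul]
      have h4 := fix_ann D hv sg hc (S := S) (by omega) (p • w) g⁻¹ _ h3
      rwa [← AlgEquiv.mul_apply, ← map_mul, inv_mul_cancel, map_one, AlgEquiv.one_apply,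
        ← mul_smul, hp] at h4
    have h5 := congrArg Subtype.val (h2 ⟨_, h1⟩)
    rwa [Submodule.coe_smul, ← mul_smul, hp] at h5

end Normed

/-- A group with `m ≤ v(G)` acting continuously by automorphisms on an algebra of `m × m` matrices
does not move a nonzero idempotent to an orthogonal one. -/
theorem ms_alg {m : ℕ} (hv : D.ltV (m - 1)) {A : Type} [Ring A] [Algebra ℝ A]
    (ev : A →ₐ[ℝ] Mat m) (hev : Function.Injective ev) (sg : G →* (A ≃ₐ[ℝ] A))
    (hc : ∀ a, Continuous fun g => ev (sg g a)) (g : G) (p : A) (hp : p * p = p)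
    (h0 : sg g p * p = 0) : p = 0 := by
  let _ : NormedRing A := NormedRing.induced A (Mat m) ev hev
  let _ : NormedAlgebra ℝ A := NormedAlgebra.induced ℝ A (Mat m) ev
  have : FiniteDimensional ℝ A := Module.Finite.of_injective ev.toLinearMap hev
  let _ : Module A (Fin m → ℝ) := Module.compHom _ ev.toRingHom
  have hsm : ∀ (a : A) (v : Fin m → ℝ), a • v = ev a *ᵥ v := fun a v => rfl
  have : IsScalarTower ℝ A (Fin m → ℝ) :=
    ⟨fun c a v => by rw [hsm, hsm, map_smul, Matrix.smul_mulVec]⟩
  have h1 := idem_smul_eq_zero D hv sg (fun a => continuous_induced_rng.2 (hc a)) g p hp h0 m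
    (Fin m → ℝ) (by simp) (by omega)
  refine hev ?_
  rw [map_zero]
  refine Matrix.toLin'.injective (LinearMap.ext fun v => ?_)
  rw [map_zero, Matrix.toLin'_apply, ← hsm, h1, LinearMap.zero_apply]

end Pool.Agent.P.MP_d483fb_an.Z.MS
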