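import Pool.Agent.P.MP_d483fb_an.Z.MS.BD
import Pool.Agent.P.MP_d483fb_an.Z.MS.AlgA

/-!
The algebra of finite continuous sections of the endomorphism bundle of a measurable cocycle.
-/

open scoped Matrix Topology
open MeasureTheory Filter Set

set_option linter.unusedSectionVars false

noncomputable section

namespace Pool.Agent.P.MP_d483fb_an.Z.MS

/-- Classes of functions modulo null sets. -/
def Gm {X : Type} [MeasurableSpace X] (μ : Measure X) (V : Type) : Type := Germ (ae μ) V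

section Gm

variable {X V : Type} [MeasurableSpace X] {μ : Measure X} [Ring V] [Algebra ℝ V]

instance : Ring (Gm μ V) := inferInstanceAs (Ring (Germ (ae μ) V))

instance : Module ℝ (Gm μ V) := inferInstanceAs (Module ℝ (Germ (ae μ) V))

/-- The class of a function. -/
def cl0 (μ : Measure X) (f : X → V) : Gm μ V := (f : Germ (ae μ) V)

theorem cl0_surj (s : Gm μ V) : ∃ f, cl0 μ f = s := Quotient.exists_rep s

instance : Algebra ℝ (Gm μ V) :=
  Algebra.ofModule
    (fun r s t => by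
      obtain ⟨f, rfl⟩ := cl0_surj s
      obtain ⟨g, rfl⟩ := cl0_surj t
      exact congrArg (cl0 μ) (smul_mul_assoc r f g))
    (fun r s t => by
      obtain ⟨f, rfl⟩ := cl0_surj s
      obtain ⟨g, rfl⟩ := cl0_surj t
      exact congrArg (cl0 μ) (mul_smul_comm r f g))

/-- The class of a function, as a homomorphism. -/
def cl (μ : Measure X) : (X → V) →ₐ[ℝ] Gm μ V :=
  AlgHom.ofLinearMap ⟨⟨cl0 μ, fun _ _ => rfl⟩, fun _ _ => rfl⟩ rfl fun _ _ => rfl

theorem cl_surj (s : Gm μ V) : ∃ f, cl μ f = s := cl0_surj s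

theorem cl_eq {f g : X → V} : cl μ f = cl μ g ↔ f =ᵐ[μ] g := Germ.coe_eq

end Gm

/-- A measurable linear cocycle over a measure preserving action. -/
structure Cc (G : Type) {X : Type} (E : Type) [Group G] [MeasurableSpace X] [MulAction G X]
    (μ : Measure X) [NormedAddCommGroup E] [NormedSpace ℝ E] where
  c : G → X → E →L[ℝ] E
  one : ∀ x, c 1 x = 1
  mul : ∀ g h x, c (g * h) x = c g (h • x) * c h x
  sm : ∀ g, StronglyMeasurable (c g)
  mp : ∀ g : G, MeasurePreserving (fun x : X => g • x) μ μ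

namespace Cc

variable {G X E : Type} [Group G] [MeasurableSpace X] [MulAction G X] {μ : Measure X}
  [NormedAddCommGroup E] [NormedSpace ℝ E] (C : Cc G E μ)

theorem inv_mul (g : G) (x : X) : C.c g⁻¹ (g • x) * C.c g x = 1 := by
  rw [← C.mul, inv_mul_cancel, C.one]

theorem mul_inv (g : G) (x : X) : C.c g x * C.c g⁻¹ (g • x) = 1 := by
  have := C.inv_mul g⁻¹ (g • x)
  rwa [inv_inv, inv_smul_smul] at this

/-- The action on sections of the endomorphism bundle. -/
def act (g : G) : (X → E →L[ℝ] E) →ₐ[ℝ] (X → E →L[ℝ] E) :=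
  AlgHom.ofLinearMap
    { toFun := fun f x => C.c g (g⁻¹ • x) * f (g⁻¹ • x) * C.c g⁻¹ x
      map_add' := fun f f' => funext fun x => by simp [mul_add, add_mul]
      map_smul' := fun r f => funext fun x => by simp }
    (funext fun x => by
      have := C.mul_inv g (g⁻¹ • x)
      rw [smul_inv_smul] at this
      simpa using this)
    fun f f' => funext fun x => by
      have := C.inv_mul g (g⁻¹ • x)
      rw [smul_inv_smul] at this
      simp only [LinearMap.coe_mk, AddHom.coe_mk, Pi.mul_apply, mul_assoc]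
      rw [← mul_assoc (C.c g⁻¹ x), this, one_mul]

theorem act_apply (g : G) (f : X → E →L[ℝ] E) (x : X) :
    C.act g f x = C.c g (g⁻¹ • x) * f (g⁻¹ • x) * C.c g⁻¹ x := rfl

theorem act_one (f : X → E →L[ℝ] E) : C.act 1 f = f := funext fun x => by
  simp [act_apply, C.one]

theorem act_mul (g h : G) (f : X → E →L[ℝ] E) : C.act (g * h) f = C.act g (C.act h f) :=
  funext fun x => by
    simp only [act_apply, mul_inv_rev, C.mul, mul_smul, smul_inv_smul, mul_assoc]

theorem act_smul (g : G) (f : X → E →L[ℝ] E) (x : X) :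
    C.act g f (g • x) = C.c g x * f x * C.c g⁻¹ (g • x) := by
  rw [act_apply, inv_smul_smul]

theorem act_congr (g : G) {f f' : X → E →L[ℝ] E} (h : f =ᵐ[μ] f') :
    C.act g f =ᵐ[μ] C.act g f' := by
  filter_upwards [(C.mp g⁻¹).quasiMeasurePreserving.ae h] with x hx
  rw [act_apply, act_apply, hx]

theorem sm_act (g : G) {f : X → E →L[ℝ] E} (h : StronglyMeasurable f) :
    StronglyMeasurable (C.act g f) :=
  (((C.sm g).comp_measurable (C.mp g⁻¹).measurable).mul
    (h.comp_measurable (C.mp g⁻¹).measurable)).mul (C.sm g⁻¹)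

/-- The action on classes of sections. -/
def pi (g : G) : Gm μ (E →L[ℝ] E) →ₐ[ℝ] Gm μ (E →L[ℝ] E) :=
  AlgHom.ofLinearMap
    { toFun := Germ.map' (C.act g) fun _ _ h => C.act_congr g h
      map_add' := fun s t => by
        obtain ⟨f, rfl⟩ := cl_surj s
        obtain ⟨f', rfl⟩ := cl_surj t
        exact congrArg (cl μ) (map_add (C.act g) f f')
      map_smul' := fun r s => by
        obtain ⟨f, rfl⟩ := cl_surj s
        exact congrArg (cl μ) (map_smul (C.act g) r f) }
    (congrArg (cl μ) (map_one (C.act g)))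
    fun s t => by
      obtain ⟨f, rfl⟩ := cl_surj s
      obtain ⟨f', rfl⟩ := cl_surj t
      exact congrArg (cl μ) (map_mul (C.act g) f f')

theorem pi_cl (g : G) (f : X → E →L[ℝ] E) : C.pi g (cl μ f) = cl μ (C.act g f) := rfl

theorem pi_one (s : Gm μ (E →L[ℝ] E)) : C.pi 1 s = s := by
  obtain ⟨f, rfl⟩ := cl_surj s
  rw [pi_cl, act_one]

theorem pi_mul (g h : G) (s : Gm μ (E →L[ℝ] E)) : C.pi (g * h) s = C.pi g (C.pi h s) := by
  obtain ⟨f, rfl⟩ := cl_surj s
  rw [pi_cl, pi_cl, pi_cl, act_mul]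

variable [TopologicalSpace G] [IsTopologicalGroup G]

/-- The orbit of `s` is a finite combination with continuous coefficients. -/
def Fc (s : Gm μ (E →L[ℝ] E)) : Prop :=
  ∃ (ι : Type) (_ : Fintype ι) (w : ι → Gm μ (E →L[ℝ] E)) (α : ι → G → ℝ),
    (∀ i, Continuous (α i)) ∧ ∀ g, C.pi g s = ∑ i, α i g • w i

/-- The algebra of measurable finite continuous sections. -/
def alg : Subalgebra ℝ (Gm μ (E →L[ℝ] E)) where
  carrier := {s | (∃ f, StronglyMeasurable f ∧ cl μ f = s) ∧ C.Fc s}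
  mul_mem' := by
    rintro _ _ ⟨⟨f, hf, rfl⟩, ι, _, w, α, hα, hw⟩ ⟨⟨f', hf', rfl⟩, ι', _, w', α', hα', hw'⟩
    refine ⟨⟨f * f', hf.mul hf', map_mul _ _ _⟩, ι × ι', inferInstance, fun p => w p.1 * w' p.2,
      fun p g => α p.1 g * α' p.2 g, fun p => (hα _).mul (hα' _), fun g => ?_⟩
    rw [map_mul, hw, hw', Finset.sum_mul_sum, Fintype.sum_prod_type]
    simp only [smul_mul_smul_comm]
  add_mem' := by
    rintro _ _ ⟨⟨f, hf, rfl⟩, ι, _, w, α, hα, hw⟩ ⟨⟨f', hf', rfl⟩, ι', _, w', α', hα', hw'⟩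
    refine ⟨⟨f + f', hf.add hf', map_add _ _ _⟩, ι ⊕ ι', inferInstance, Sum.elim w w',
      Sum.elim α α', fun p => p.rec hα hα', fun g => ?_⟩
    rw [map_add, hw, hw', Fintype.sum_sum_type]
    rfl
  algebraMap_mem' r := by
    refine ⟨⟨fun _ => algebraMap ℝ _ r, stronglyMeasurable_const, (cl μ).commutes r⟩, Unit,
      inferInstance, fun _ => algebraMap ℝ _ r, fun _ _ => 1, fun _ => continuous_const,
      fun g => ?_⟩
    simp

theorem mem_alg {s : Gm μ (E →L[ℝ] E)} :
    s ∈ C.alg ↔ (∃ f, StronglyMeasurable f ∧ cl μ f = s) ∧ C.Fc s := Iff.rfl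

theorem pi_mem (h : G) {s : Gm μ (E →L[ℝ] E)} (hs : s ∈ C.alg) : C.pi h s ∈ C.alg := by
  obtain ⟨⟨f, hf, rfl⟩, ι, _, w, α, hα, hw⟩ := hs
  refine ⟨⟨_, C.sm_act h hf, rfl⟩, ι, inferInstance, w, fun i g => α i (g * h),
    fun i => (hα i).comp (continuous_id.mul continuous_const), fun g => ?_⟩
  rw [← pi_mul, hw]

theorem Fc.continuous {s : Gm μ (E →L[ℝ] E)} (hs : C.Fc s) {Y : Type} [NormedAddCommGroup Y]
    [NormedSpace ℝ Y] (φ : Gm μ (E →L[ℝ] E) →ₗ[ℝ] Y) : Continuous fun g => φ (C.pi g s) := by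
  obtain ⟨ι, _, w, α, hα, hw⟩ := hs
  simp only [hw, map_sum, map_smul]
  exact continuous_finsetSum _ fun i _ => (hα i).smul continuous_const

/-- The action on the algebra. -/
def sg : G →* (C.alg ≃ₐ[ℝ] C.alg) where
  toFun g := AlgEquiv.ofAlgHom
    (((C.pi g).comp C.alg.val).codRestrict C.alg fun s => C.pi_mem g s.2)
    (((C.pi g⁻¹).comp C.alg.val).codRestrict C.alg fun s => C.pi_mem g⁻¹ s.2)
    (AlgHom.ext fun s => Subtype.ext (by
      change C.pi g (C.pi g⁻¹ s) = s
      rw [← pi_mul, mul_inv_cancel, pi_one]))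
    (AlgHom.ext fun s => Subtype.ext (by
      change C.pi g⁻¹ (C.pi g s) = s
      rw [← pi_mul, inv_mul_cancel, pi_one]))
  map_one' := AlgEquiv.ext fun s => Subtype.ext (C.pi_one s)
  map_mul' g h := AlgEquiv.ext fun s => Subtype.ext (C.pi_mul g h s)

theorem coe_sg (g : G) (s : C.alg) : (C.sg g s : Gm μ (E →L[ℝ] E)) = C.pi g s := rfl

variable [FirstCountableTopology G] [IsProbabilityMeasure μ] [FiniteDimensional ℝ E]

/-- A basis of an invariant space of finite continuous sections is pointwise independent. -/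
theorem basis_inj (hgen : SR.Gen G) {h : G} (he : Ergodic (fun x : X => h • x) μ)
    (W : Submodule ℝ (Gm μ (E →L[ℝ] E))) (hW : ∀ s ∈ W, s ∈ C.alg)
    (hinv : ∀ g, ∀ s ∈ W, C.pi g s ∈ W) {n : ℕ} (b : Module.Basis (Fin n) ℝ W)
    (f : Fin n → X → E →L[ℝ] E) (hf : ∀ j, StronglyMeasurable (f j))
    (hb : ∀ j, cl μ (f j) = b j) :
    ∀ᵐ x ∂μ, ∀ v : Fin n → ℝ, ∑ j, v j • f j x = 0 → v = 0 := by
  let ρ : G →* Module.End ℝ W :=
    { toFun := fun g => (C.pi g).toLinearMap.restrict (hinv g)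
      map_one' := LinearMap.ext fun s => Subtype.ext (C.pi_one s)
      map_mul' := fun g h => LinearMap.ext fun s => Subtype.ext (C.pi_mul g h s) }
  have hρ : ∀ g (s : W), (ρ g s : Gm μ (E →L[ℝ] E)) = C.pi g s := fun g s => rfl
  let τ : G →* Matrix (Fin n) (Fin n) ℝ := (LinearMap.toMatrixAlgEquiv b).toMonoidHom.comp ρ
  have hτ : ∀ g i j, τ g i j = b.repr (ρ g (b j)) i := fun g i j =>
    LinearMap.toMatrixAlgEquiv_apply b (ρ g) i j
  have hsum : ∀ v : Fin n → ℝ, cl μ (∑ j, v j • f j) = (∑ j, v j • b j : W) := by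
    intro v
    simp [hb]
  refine inj_ae hgen C.mp he (fun g x => LinearMap.mulLeftRight ℝ (C.c g x, C.c g⁻¹ (g • x))) f τ
    (continuous_matrix fun i j => ?_) hf (fun g j => ?_) fun v hv => ?_
  · obtain ⟨φ, hφ⟩ := LinearMap.exists_extend (b.coord i)
    refine (Fc.continuous C (hW _ (b j).2).2 φ).congr fun g => ?_
    rw [hτ, ← hρ]
    exact LinearMap.congr_fun hφ (ρ g (b j))
  · have h1 : cl μ (C.act g (f j)) = cl μ (∑ i, τ g i j • f i) := by
      rw [← pi_cl, hb, ← hρ, hsum]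
      simp only [hτ, b.sum_repr]
    filter_upwards [(C.mp g).quasiMeasurePreserving.ae (cl_eq.1 h1)] with x hx
    rw [act_smul] at hx
    rw [LinearMap.mulLeftRight_apply, hx]
    simp
  · have h1 : cl μ (∑ j, v j • f j) = cl μ 0 := cl_eq.2 (hv.mono fun x hx => by simpa using hx)
    rw [hsum, map_zero, Submodule.coe_eq_zero] at h1
    exact funext (Fintype.linearIndependent_iff.1 b.linearIndependent v h1)

theorem finrank_le (hgen : SR.Gen G) {h : G} (he : Ergodic (fun x : X => h • x) μ)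
    (W : Submodule ℝ (Gm μ (E →L[ℝ] E))) [FiniteDimensional ℝ W] (hW : ∀ s ∈ W, s ∈ C.alg)
    (hinv : ∀ g, ∀ s ∈ W, C.pi g s ∈ W) :
    Module.finrank ℝ W ≤ Module.finrank ℝ (E →L[ℝ] E) := by
  let b := Module.finBasis ℝ W
  choose f hf hb using fun j => (hW _ (b j).2).1
  obtain ⟨x, hx⟩ := (C.basis_inj hgen he W hW hinv b f hf hb).exists
  have : LinearIndependent ℝ fun j => f j x :=
    Fintype.linearIndependent_iff.2 fun v hv => congrFun (hx v hv)
  simpa using this.fintype_card_le_finrank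

theorem finiteDimensional_alg (hgen : SR.Gen G) {h : G} (he : Ergodic (fun x : X => h • x) μ) :
    FiniteDimensional ℝ C.alg := by
  have key : Module.rank ℝ C.alg ≤ Module.finrank ℝ (E →L[ℝ] E) := by
    refine rank_le fun s hs => ?_
    let O : s → Submodule ℝ (Gm μ (E →L[ℝ] E)) := fun a =>
      Submodule.span ℝ (range fun g => C.pi g a.1.1)
    have hfd : ∀ a, FiniteDimensional ℝ (O a) := by
      intro a
      obtain ⟨ι, _, w, α, -, hw⟩ := a.1.2.2
      have := FiniteDimensional.span_of_finite ℝ (finite_range w)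
      refine Submodule.finiteDimensional_of_le (S₂ := Submodule.span ℝ (range w))
        (Submodule.span_le.2 ?_)
      rintro _ ⟨g, rfl⟩
      simp only [hw]
      exact Submodule.sum_mem _ fun i _ => Submodule.smul_mem _ _ (Submodule.subset_span ⟨i, rfl⟩)
    have h1 : (⨆ a, O a) ≤ C.alg.toSubmodule := iSup_le fun a => Submodule.span_le.2 (by
      rintro _ ⟨g, rfl⟩
      exact C.pi_mem g a.1.2)
    have h2 : ∀ g, (⨆ a, O a) ≤ (⨆ a, O a).comap (C.pi g).toLinearMap := fun g =>
      iSup_le fun a => Submodule.span_le.2 (by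
        rintro _ ⟨g', rfl⟩
        exact Submodule.mem_iSup_of_mem a (Submodule.subset_span ⟨g * g', C.pi_mul g g' _⟩))
    have h3 := C.finrank_le hgen he (⨆ a, O a) h1 h2
    have h4 : ∀ a : s, a.1.1 ∈ ⨆ a, O a := fun a =>
      Submodule.mem_iSup_of_mem a (Submodule.subset_span ⟨1, C.pi_one _⟩)
    have h5 : LinearIndependent ℝ fun a : s => (⟨a.1.1, h4 a⟩ : (⨆ a, O a :)) :=
      LinearIndependent.of_comp (⨆ a, O a).subtype
        (hs.map' C.alg.toSubmodule.subtype (Submodule.ker_subtype _))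
    simpa using h5.fintype_card_le_finrank.trans h3
  exact Module.rank_lt_aleph0_iff.1 (key.trans_lt Cardinal.natCast_lt_aleph0)

/-- Evaluation at a generic point embeds the algebra. -/
theorem exists_ev (hgen : SR.Gen G) {h : G} (he : Ergodic (fun x : X => h • x) μ) :
    ∃ ev : C.alg →ₐ[ℝ] (E →L[ℝ] E), Function.Injective ev := by
  have := C.finiteDimensional_alg hgen he
  let b := Module.finBasis ℝ C.alg
  choose f hf hb using fun j => (b j).2.1
  have h1 := C.basis_inj hgen he C.alg.toSubmodule (fun s hs => hs) (fun g s hs => C.pi_mem g hs)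
    b f hf hb
  let ev : X → C.alg →ₗ[ℝ] (E →L[ℝ] E) := fun x => b.constr ℝ fun j => f j x
  have hev : ∀ x s, ev x s = ∑ j, b.repr s j • f j x := fun x s => by
    simp [ev, Module.Basis.constr_apply_fintype]
  have h2 : ∀ (s : C.alg) (p : X → E →L[ℝ] E), cl μ p = s → ∀ᵐ x ∂μ, ev x s = p x := by
    intro s p hp
    have h3 : cl μ (∑ j, b.repr s j • f j) = cl μ p := by
      have h5 := congrArg C.alg.val (b.sum_repr s)
      rw [map_sum] at h5
      rw [hp, map_sum]
      simp only [map_smul, hb] at h5 ⊢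
      exact h5
    filter_upwards [cl_eq.1 h3] with x hx
    rw [hev, ← hx]
    simp
  have h4 : ∀ᵐ x ∂μ, ∀ i j, ev x (b i * b j) = f i x * f j x := ae_all_iff.2 fun i =>
    ae_all_iff.2 fun j => h2 _ (f i * f j) (by rw [map_mul, hb, hb]; rfl)
  obtain ⟨x, hx1, hx2, hx3⟩ := (h1.and (h4.and (h2 1 1 (map_one _)))).exists
  refine ⟨AlgHom.ofLinearMap (ev x) hx3 ?_, ?_⟩
  · rw [LinearMap.map_mul_iff]
    refine b.ext fun i => b.ext fun j => ?_
    simpa [ev] using hx2 i j
  · refine (injective_iff_map_eq_zero _).2 fun s hs => ?_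
    have := hx1 (fun j => b.repr s j) (by rw [← hev]; exact hs)
    exact b.ext_elem fun j => by simpa using congrFun this j

/-- A finite continuous idempotent section is not moved to an orthogonal one. -/
theorem idem_ae_zero {n m : ℕ} (D : ExpData G n) (hv : D.ltV m)
    (hE : Module.finrank ℝ E ≤ m + 1) (hgen : SR.Gen G) {h : G}
    (he : Ergodic (fun x : X => h • x) μ) {p : X → E →L[ℝ] E} (hp : StronglyMeasurable p)
    (hfc : C.Fc (cl μ p)) (hpp : ∀ᵐ x ∂μ, p x * p x = p x) (g : G)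
    (h0 : ∀ᵐ x ∂μ, C.act g p x * p x = 0) : ∀ᵐ x ∂μ, p x = 0 := by
  have := C.finiteDimensional_alg hgen he
  obtain ⟨ev, hev⟩ := C.exists_ev hgen he
  let _ : NormedRing C.alg := NormedRing.induced C.alg (E →L[ℝ] E) ev hev
  let _ : NormedAlgebra ℝ C.alg := NormedAlgebra.induced ℝ C.alg (E →L[ℝ] E) ev
  let _ : Module C.alg E := Module.compHom _ ev.toRingHom
  have hsm : ∀ (a : C.alg) (v : E), a • v = ev a v := fun a v => rfl
  have : IsScalarTower ℝ C.alg E := ⟨fun c a v => by rw [hsm, hsm, map_smul]; rfl⟩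
  obtain ⟨φ, hφ⟩ := LinearMap.exists_extend (p := C.alg.toSubmodule) ev.toLinearMap
  have hc : ∀ a : C.alg, Continuous fun g => C.sg g a := fun a =>
    continuous_induced_rng.2 ((Fc.continuous C a.2.2 φ).congr fun g =>
      LinearMap.congr_fun hφ (C.sg g a))
  let P : C.alg := ⟨cl μ p, ⟨p, hp, rfl⟩, hfc⟩
  have h1 : P * P = P := Subtype.ext (((map_mul (cl μ) p p).symm).trans (cl_eq.2 hpp))
  have h2 : C.sg g P * P = 0 :=
    Subtype.ext (((map_mul (cl μ) (C.act g p) p).symm).trans ((cl_eq.2 h0).trans (map_zero _)))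
  have h3 := idem_smul_eq_zero D hv C.sg hc g P h1 h2 (m + 1) E hE le_rfl
  have h4 : P = 0 := hev (by
    rw [map_zero]
    exact ContinuousLinearMap.ext h3)
  exact cl_eq.1 ((congrArg Subtype.val h4).trans (map_zero (cl μ)).symm)

end Cc

end Pool.Agent.P.MP_d483fb_an.Z.MS
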