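import Pool.Agent.P.MP_d483fb_an.Z.SR.Defs

/-!
Borel density by recurrence: an equivariant measurable field of kernels is invariant under
unipotent elements; independent sections are pointwise independent.
-/

open scoped Matrix Topology
open MeasureTheory Filter Set

set_option linter.unusedSectionVars false

noncomputable section

namespace Pool.Agent.P.MP_d483fb_an.Z.MS

/-- An element that is contracted by conjugation is unipotent in every representation. -/
theorem unip_of_contr {G : Type} [Group G] [TopologicalSpace G] {n : ℕ}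
    (τ : G →* Matrix (Fin n) (Fin n) ℝ) (hτ : Continuous τ) {h u : G} (hc : SR.Contr h u) :
    IsNilpotent (τ u - 1) := by
  have h1 : ∀ t : ℝ, (Matrix.scalar (Fin n) t - τ u).det = (Matrix.scalar (Fin n) t - 1).det := by
    intro t
    have h2 : ∀ g : G, (Matrix.scalar (Fin n) t - τ (g * u * g⁻¹)).det =
        (Matrix.scalar (Fin n) t - τ u).det := by
      intro g
      have h3 : τ g * τ g⁻¹ = 1 := by rw [← map_mul, mul_inv_cancel, map_one]
      have h4 : Matrix.scalar (Fin n) t - τ (g * u * g⁻¹) =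
          τ g * (Matrix.scalar (Fin n) t - τ u) * τ g⁻¹ := by
        rw [mul_sub, sub_mul, ← (Matrix.scalar_commute t (fun _ => Commute.all _ _) (τ g)).eq,
          mul_assoc (Matrix.scalar (Fin n) t), h3, mul_one, map_mul, map_mul]
      rw [h4, Matrix.det_mul, Matrix.det_mul, mul_right_comm, ← Matrix.det_mul, h3, Matrix.det_one,
        one_mul]
    have h5 : Continuous fun g : G => (Matrix.scalar (Fin n) t - τ g).det :=
      (continuous_const.sub hτ).matrix_det
    have h6 := (h5.tendsto 1).comp hc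
    simp only [Function.comp_def, h2, map_one] at h6
    exact tendsto_nhds_unique tendsto_const_nhds h6
  have h7 : (τ u).charpoly = (Polynomial.X - 1) ^ n := by
    refine Polynomial.funext fun t => ?_
    have : Matrix.scalar (Fin n) t - 1 = Matrix.diagonal fun _ => t - 1 := by
      rw [Matrix.scalar_apply, ← Matrix.diagonal_one, Matrix.diagonal_sub]
    rw [Matrix.eval_charpoly, h1, this]
    simp
  have h8 := Matrix.aeval_self_charpoly (τ u)
  rw [h7] at h8
  exact ⟨n, by simpa using h8⟩

theorem tendsto_choose_div {i j : ℕ} (h : i < j) :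
    Tendsto (fun m : ℕ => (m.choose i : ℝ) / m.choose j) atTop (𝓝 0) := by
  have h1 : (fun m : ℕ => (m : ℝ) ^ i) =o[atTop] fun m : ℕ => (m : ℝ) ^ j :=
    (Asymptotics.isLittleO_pow_pow_atTop_of_lt (𝕜 := ℝ) h).comp_tendsto tendsto_natCast_atTop_atTop
  exact (((isTheta_choose i).trans_isLittleO h1).trans_isTheta
    (isTheta_choose j).symm).tendsto_div_nhds_zero

section Rec

variable {W E : Type} [NormedAddCommGroup W] [NormedSpace ℝ W] [NormedAddCommGroup E]
  [NormedSpace ℝ E]

/-- A kernel that is recurrent under a unipotent map is invariant. -/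
theorem rec_ker (N : Module.End ℝ W) (hN : IsNilpotent N) (T : ℕ → W →L[ℝ] E) (T0 : W →L[ℝ] E)
    (hT : ∀ m v, T0 v = 0 → T m (((1 + N) ^ m) v) = 0) (hcl : MapClusterPt T0 atTop T)
    (w : W) (hw : T0 w = 0) : T0 (N w) = 0 := by
  let K : Submodule ℝ W :=
    { carrier := {v | ∀ i : ℕ, T0 ((N ^ i) v) = 0}
      zero_mem' := by intro i; simp
      add_mem' := by
        intro a b ha hb i
        rw [map_add, map_add, ha i, hb i, add_zero]
      smul_mem' := by
        intro c a ha i
        rw [map_smul, map_smul, ha i, smul_zero] }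
  have hK : ∀ v, v ∈ K ↔ ∀ i : ℕ, T0 ((N ^ i) v) = 0 := fun v => Iff.rfl
  have hKN : MapsTo N K K := by
    intro v hv i
    have := hv (i + 1)
    rwa [pow_succ, Module.End.mul_apply] at this
  have hKp : ∀ (i : ℕ), ∀ v ∈ K, (N ^ i) v ∈ K := by
    intro i v hv j
    have := hv (j + i)
    rwa [pow_add, Module.End.mul_apply] at this
  have hsurj : ∀ (m : ℕ), ∀ z ∈ K, ∃ z' ∈ K, ((1 + N) ^ m) z' = z := by
    have hu := (Module.End.isNilpotent.restrict hKN hN).isUnit_one_add
    have h1 := ((Module.End.isUnit_iff _).1 hu).2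
    intro m
    induction m with
    | zero => exact fun z hz => ⟨z, hz, by simp⟩
    | succ m ih =>
      intro z hz
      obtain ⟨y, hy, rfl⟩ := ih z hz
      obtain ⟨x, hx⟩ := h1 ⟨y, hy⟩
      refine ⟨x, x.2, ?_⟩
      rw [pow_succ, Module.End.mul_apply]
      exact congrArg _ (congrArg Subtype.val hx)
  have hTK : ∀ m, ∀ z ∈ K, T m z = 0 := by
    intro m z hz
    obtain ⟨y, hy, rfl⟩ := hsurj m z hz
    exact hT m y (by simpa using hy 0)
  have key : ∀ j : ℕ, (N ^ (j + 1)) w ∈ K → (N ^ j) w ∈ K := by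
    intro j hj
    have h1 : ∀ m, j + 1 ≤ m → T m (∑ i ∈ Finset.range (j + 1),
        ((m.choose i : ℝ) / m.choose j) • (N ^ i) w) = 0 := by
      intro m hm
      have h2 := hT m w hw
      rw [add_comm, (Commute.one_right N).add_pow,
        ← Finset.sum_range_add_sum_Ico _ (by omega : j + 1 ≤ m + 1), LinearMap.add_apply, map_add,
        hTK m ((∑ i ∈ Finset.Ico (j + 1) (m + 1), N ^ i * 1 ^ (m - i) * (m.choose i : Module.End ℝ W)) w),
        add_zero] at h2
      · have h3 : ∑ i ∈ Finset.range (j + 1), ((m.choose i : ℝ) / m.choose j) • (N ^ i) w =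
            (m.choose j : ℝ)⁻¹ • (∑ i ∈ Finset.range (j + 1),
              N ^ i * 1 ^ (m - i) * (m.choose i : Module.End ℝ W)) w := by
          rw [LinearMap.sum_apply, Finset.smul_sum]
          refine Finset.sum_congr rfl fun i _ => ?_
          rw [one_pow, mul_one, Module.End.mul_apply, Module.End.natCast_apply,
            ← Nat.cast_smul_eq_nsmul ℝ, map_smul, smul_smul, div_eq_inv_mul]
        rw [h3, map_smul, h2, smul_zero]
      · rw [LinearMap.sum_apply]
        refine K.sum_mem fun i hi => ?_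
        obtain ⟨l, rfl⟩ := Nat.exists_eq_add_of_le' (Finset.mem_Ico.1 hi).1
        rw [one_pow, mul_one, Module.End.mul_apply, Module.End.natCast_apply, map_nsmul, pow_add,
          Module.End.mul_apply]
        exact nsmul_mem (hKp l _ hj) _
    have h4 : Tendsto (fun m : ℕ => ∑ i ∈ Finset.range (j + 1),
        ((m.choose i : ℝ) / m.choose j) • (N ^ i) w) atTop (𝓝 ((N ^ j) w)) := by
      simp only [Finset.sum_range_succ]
      have h5 : Tendsto (fun m : ℕ => ∑ i ∈ Finset.range j,
          ((m.choose i : ℝ) / m.choose j) • (N ^ i) w) atTop (𝓝 (∑ i ∈ Finset.range j,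
            (0 : ℝ) • (N ^ i) w)) :=
        tendsto_finsetSum _ fun i hi => (tendsto_choose_div (Finset.mem_range.1 hi)).smul_const _
      have h6 : Tendsto (fun m : ℕ => ((m.choose j : ℝ) / m.choose j) • (N ^ j) w) atTop
          (𝓝 ((N ^ j) w)) := by
        refine tendsto_const_nhds.congr' ?_
        filter_upwards [eventually_ge_atTop j] with m hm
        rw [div_self (by exact_mod_cast (Nat.choose_pos hm).ne'), one_smul]
      simpa using h5.add h6
    obtain ⟨φ, hφ, hlim⟩ := hcl.tendsto_subseq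
    have h7 := (isBoundedBilinearMap_apply.continuous.tendsto (T0, (N ^ j) w)).comp
      (hlim.prodMk_nhds (h4.comp hφ.tendsto_atTop))
    have h8 : T0 ((N ^ j) w) = 0 := by
      refine tendsto_nhds_unique h7 (tendsto_const_nhds.congr' ?_)
      filter_upwards [hφ.tendsto_atTop.eventually (eventually_ge_atTop (j + 1))] with m hm
      exact (h1 _ hm).symm
    intro i
    rcases i with _ | i
    · simpa using h8
    · have := hj i
      rwa [← Module.End.mul_apply, ← pow_add, ← add_assoc, add_right_comm, pow_add,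
        Module.End.mul_apply] at this
  obtain ⟨r, hr⟩ := hN
  have h9 : ∀ j, j ≤ r → (N ^ (r - j)) w ∈ K := by
    intro j
    induction j with
    | zero => intro _; simp [hr]
    | succ j ih =>
      intro hj
      refine key _ ?_
      rw [show r - (j + 1) + 1 = r - j by omega]
      exact ih (by omega)
  have h10 := h9 r le_rfl 1
  simpa using h10

variable {X : Type} [MeasurableSpace X] {μ : Measure X} [IsFiniteMeasure μ]

/-- Poincare recurrence for the values of a measurable function. -/
theorem ae_cluster {Y : Type} [TopologicalSpace Y] [SecondCountableTopology Y]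
    [TopologicalSpace.PseudoMetrizableSpace Y] {f : X → X} (hf : MeasurePreserving f μ μ)
    {T : X → Y} (hT : StronglyMeasurable T) :
    ∀ᵐ x ∂μ, MapClusterPt (T x) atTop fun m => T (f^[m] x) := by
  borelize Y
  have h : ∀ s ∈ TopologicalSpace.countableBasis Y, ∀ᵐ x ∂μ, x ∈ T ⁻¹' s →
      ∃ᶠ n in atTop, f^[n] x ∈ T ⁻¹' s := fun s hs =>
    hf.conservative.ae_mem_imp_frequently_image_mem
      (hT.measurable (TopologicalSpace.isOpen_of_mem_countableBasis hs).measurableSet).nullMeasurableSet
  refine ((ae_ball_iff <| TopologicalSpace.countable_countableBasis Y).2 h).mono fun x hx => ?_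
  rw [mapClusterPt_iff_frequently]
  intro s hs
  obtain ⟨o, hoS, hxo, hos⟩ := (TopologicalSpace.isBasis_countableBasis Y).mem_nhds_iff.1 hs
  exact (hx o hoS hxo).mono fun n hn => hos hn

/-- An equivariant field of kernels is invariant under a unipotent map. -/
theorem bd_ker [FiniteDimensional ℝ W] [FiniteDimensional ℝ E] {f : X → X}
    (hf : MeasurePreserving f μ μ) {T : X → W →L[ℝ] E} (hT : StronglyMeasurable T)
    (u : Module.End ℝ W) (hu : IsNilpotent (u - 1))
    (h : ∀ᵐ x ∂μ, ∀ v, T x v = 0 → T (f x) (u v) = 0) :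
    ∀ᵐ x ∂μ, ∀ v, T x v = 0 → T x (u v) = 0 := by
  have h1 : ∀ᵐ x ∂μ, ∀ m : ℕ, ∀ v, T (f^[m] x) v = 0 → T (f (f^[m] x)) (u v) = 0 :=
    ae_all_iff.2 fun m => (hf.iterate m).quasiMeasurePreserving.ae h
  filter_upwards [h1, ae_cluster hf hT] with x hx hcl v hv
  have h2 : ∀ m v, T x v = 0 → T (f^[m] x) (((1 + (u - 1)) ^ m) v) = 0 := by
    intro m v hv
    rw [add_sub_cancel]
    induction m with
    | zero => simpa using hv
    | succ m ih =>
      rw [Function.iterate_succ_apply', pow_succ', Module.End.mul_apply]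
      exact hx m _ ih
  have h3 := rec_ker (u - 1) hu _ _ h2 hcl v hv
  rwa [LinearMap.sub_apply, map_sub, Module.End.one_apply, hv, sub_zero] at h3

/-- A field of kernels that is invariant under an ergodic map is constant. -/
theorem ker_const [FiniteDimensional ℝ W] {f : X → X} (hf : Ergodic f μ) {T : X → W →L[ℝ] E}
    (hT : StronglyMeasurable T) (h : ∀ᵐ x ∂μ, ∀ v, T (f x) v = 0 ↔ T x v = 0) :
    ∀ᵐ x ∂μ, ∀ v, T x v = 0 → ∀ᵐ y ∂μ, T y v = 0 := by
  have := FiniteDimensional.proper_real W
  let K : X → Submodule ℝ W := fun x => LinearMap.ker (T x : W →ₗ[ℝ] E)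
  have hK : ∀ x v, v ∈ K x ↔ T x v = 0 := fun x v => Iff.rfl
  have hm : Os.MSub K := by
    refine Os.msub_of_bdd (φ := fun n x v => (n : ℝ) * ‖T x v‖)
      (fun n v => measurable_const.mul ((ContinuousLinearMap.apply ℝ E v).continuous.comp_stronglyMeasurable
        hT).norm.measurable) (fun n x => continuous_const.mul (T x).continuous.norm) fun x v => ?_
    rw [hK]
    refine ⟨fun h => ⟨0, fun n => by simp [h]⟩, fun ⟨M, hM⟩ => ?_⟩
    by_contra hne
    have hpos := norm_pos_iff.2 hne
    obtain ⟨n, hn⟩ := exists_nat_gt (M / ‖T x v‖)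
    rw [div_lt_iff₀ hpos] at hn
    exact absurd (hM n) (not_le.2 hn)
  have h1 : ∀ v, ∃ c, (fun x => Os.qn (K x) v) =ᵐ[μ] Function.const X c := by
    intro v
    refine hf.ae_eq_const_of_ae_eq_comp_ae (hm v).aestronglyMeasurable ?_
    filter_upwards [h] with x hx
    have : K (f x) = K x := Submodule.ext hx
    simp only [Function.comp_apply, this]
  choose c hc using h1
  have h2 : ∀ᵐ x ∂μ, ∀ j, Os.qn (K x) (TopologicalSpace.denseSeq W j) =
      c (TopologicalSpace.denseSeq W j) := ae_all_iff.2 fun j => hc _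
  filter_upwards [h2] with x hx v hv
  filter_upwards [h2] with y hy
  have h3 : Os.qn (K y) = Os.qn (K x) :=
    (TopologicalSpace.denseRange_denseSeq W).equalizer (Os.qn_cont _) (Os.qn_cont _)
      (funext fun j => (hy j).trans (hx j).symm)
  rw [← hK, ← Os.qn_eq_zero, h3, Os.qn_eq_zero]
  exact hv

end Rec

variable {G X V : Type} [Group G] [TopologicalSpace G] [IsTopologicalGroup G]
  [FirstCountableTopology G] [MeasurableSpace X] [MulAction G X] {μ : Measure X}
  [IsFiniteMeasure μ] [NormedAddCommGroup V] [NormedSpace ℝ V] [FiniteDimensional ℝ V]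

/-- Borel density for a field of kernels. -/
theorem ker_invariant (hgen : SR.Gen G) (hmp : ∀ g : G, MeasurePreserving (fun x : X => g • x) μ μ)
    {n : ℕ} (τ : G →* Matrix (Fin n) (Fin n) ℝ) (hτ : Continuous τ)
    {T : X → (Fin n → ℝ) →L[ℝ] V} (hT : StronglyMeasurable T)
    (h : ∀ g : G, ∀ᵐ x ∂μ, ∀ v, T x v = 0 → T (g • x) (τ g *ᵥ v) = 0) (g : G) :
    ∀ᵐ x ∂μ, ∀ v, T x v = 0 → T x (τ g *ᵥ v) = 0 := by
  let S : Subgroup G :=
    { carrier := {g | ∀ᵐ x ∂μ, ∀ v, T x v = 0 → T x (τ g *ᵥ v) = 0 ∧ T x (τ g⁻¹ *ᵥ v) = 0}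
      one_mem' := by
        rw [mem_ofPred_eq]
        exact Eventually.of_forall fun x v hv => by simpa using hv
      mul_mem' := by
        intro a b ha hb
        rw [mem_ofPred_eq] at ha hb ⊢
        filter_upwards [ha, hb] with x hx hy v hv
        rw [mul_inv_rev, map_mul, map_mul, ← Matrix.mulVec_mulVec, ← Matrix.mulVec_mulVec]
        exact ⟨(hx _ (hy v hv).1).1, (hy _ (hx v hv).2).2⟩
      inv_mem' := by
        intro a ha
        rw [mem_ofPred_eq] at ha ⊢
        filter_upwards [ha] with x hx v hv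
        rw [inv_inv]
        exact (hx v hv).symm }
  have hmem : ∀ g, g ∈ S ↔
      ∀ᵐ x ∂μ, ∀ v, T x v = 0 → T x (τ g *ᵥ v) = 0 ∧ T x (τ g⁻¹ *ᵥ v) = 0 := fun g => Iff.rfl
  have hS : S = ⊤ := by
    refine hgen S (IsSeqClosed.isClosed fun a b ha hab => (hmem b).2 ?_) fun a u hu => (hmem u).2 ?_
    · filter_upwards [ae_all_iff.2 fun j => (hmem _).1 (ha j)] with x hx v hv
      have h1 : Continuous fun g : G => T x (τ g *ᵥ v) :=
        (T x).continuous.comp (hτ.matrix_mulVec continuous_const)
      exact ⟨tendsto_nhds_unique ((h1.tendsto b).comp hab)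
          (tendsto_const_nhds.congr fun j => (hx j v hv).1.symm),
        tendsto_nhds_unique ((h1.tendsto b⁻¹).comp hab.inv)
          (tendsto_const_nhds.congr fun j => (hx j v hv).2.symm)⟩
    · have h1 : ∀ u : G, SR.Contr a u → ∀ᵐ x ∂μ, ∀ v, T x v = 0 → T x (τ u *ᵥ v) = 0 := by
        intro u hu
        have h2 := (unip_of_contr τ hτ hu).map Matrix.toLinAlgEquiv'
        rw [map_sub, map_one] at h2
        exact bd_ker (hmp u) hT (Matrix.toLinAlgEquiv' (τ u)) h2 (h u)
      have h3 : SR.Contr a u⁻¹ := by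
        have := Tendsto.inv hu
        simpa [SR.Contr, mul_assoc] using this
      filter_upwards [h1 u hu, h1 u⁻¹ h3] with x hx hy v hv
      exact ⟨hx v hv, hy v hv⟩
  have hg : g ∈ S := hS ▸ Subgroup.mem_top g
  filter_upwards [(hmem g).1 hg] with x hx v hv
  exact (hx v hv).1

/-- The evaluation map of a family of sections. -/
def evT {n : ℕ} (w : Fin n → X → V) (x : X) : (Fin n → ℝ) →L[ℝ] V :=
  ∑ j, (ContinuousLinearMap.proj j : (Fin n → ℝ) →L[ℝ] ℝ).smulRight (w j x)

theorem evT_apply {n : ℕ} (w : Fin n → X → V) (x : X) (v : Fin n → ℝ) :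
    evT w x v = ∑ j, v j • w j x := by
  simp [evT]

theorem sm_evT {n : ℕ} {w : Fin n → X → V} (hw : ∀ j, StronglyMeasurable (w j)) :
    StronglyMeasurable (evT w) := by
  refine Finset.stronglyMeasurable_fun_sum _ fun j _ => ?_
  exact (ContinuousLinearMap.smulRightL ℝ (Fin n → ℝ) V
    (ContinuousLinearMap.proj j)).continuous.comp_stronglyMeasurable (hw j)

/-- Independent sections that span an invariant space are pointwise independent. -/
theorem inj_ae (hgen : SR.Gen G) (hmp : ∀ g : G, MeasurePreserving (fun x : X => g • x) μ μ)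
    {h : G} (he : Ergodic (fun x : X => h • x) μ) (C : G → X → V →ₗ[ℝ] V) {n : ℕ}
    (w : Fin n → X → V) (τ : G →* Matrix (Fin n) (Fin n) ℝ) (hτ : Continuous τ)
    (hw : ∀ j, StronglyMeasurable (w j))
    (heq : ∀ g j, ∀ᵐ x ∂μ, C g x (w j x) = ∑ i, τ g i j • w i (g • x))
    (hind : ∀ v : Fin n → ℝ, (∀ᵐ x ∂μ, ∑ j, v j • w j x = 0) → v = 0) :
    ∀ᵐ x ∂μ, ∀ v : Fin n → ℝ, ∑ j, v j • w j x = 0 → v = 0 := by
  have h1 : ∀ g : G, ∀ᵐ x ∂μ, ∀ v, evT w x v = 0 → evT w (g • x) (τ g *ᵥ v) = 0 := by
    intro g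
    filter_upwards [ae_all_iff.2 (heq g)] with x hx v hv
    have h2 := congrArg (C g x) hv
    rw [evT_apply, map_zero, map_sum] at h2
    rw [evT_apply, ← h2]
    simp only [map_smul, hx, Finset.smul_sum, Matrix.mulVec, dotProduct, Finset.sum_smul, smul_smul]
    rw [Finset.sum_comm]
    exact Finset.sum_congr rfl fun i _ => Finset.sum_congr rfl fun j _ => by rw [mul_comm]
  have h3 := ker_invariant hgen hmp τ hτ (sm_evT hw) h1
  have h4 : ∀ g : G, ∀ᵐ x ∂μ, ∀ v, evT w x v = 0 → evT w (g • x) v = 0 := by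
    intro g
    filter_upwards [h1 g, h3 g⁻¹] with x hx hy v hv
    have := hx _ (hy v hv)
    rwa [Matrix.mulVec_mulVec, ← map_mul, mul_inv_cancel, map_one, Matrix.one_mulVec] at this
  have h5 := ker_const he (sm_evT hw) (by
    filter_upwards [h4 h, (hmp h).quasiMeasurePreserving.ae (h4 h⁻¹)] with x hx hy v
    exact ⟨fun hv => by simpa using hy v hv, hx v⟩)
  filter_upwards [h5] with x hx v hv
  refine hind v ?_
  filter_upwards [hx v (by rwa [evT_apply])] with y hy
  rwa [evT_apply] at hy

end Pool.Agent.P.MP_d483fb_an.Z.MS
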