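import Pool.Agent.P.MP_d483fb_an.Z.MS.Rep

/-!
A finite dimensional invariant space of sections carries a continuous action.
-/

open MeasureTheory Filter Set Topology
open scoped Pointwise

set_option linter.unusedSectionVars false

noncomputable section

namespace Pool.Agent.P.MP_d483fb_an.Z.MS

/-- Measurable homomorphisms are continuous. -/
theorem continuous_of_measurable {G M : Type} [Group G] [TopologicalSpace G] [IsTopologicalGroup G]
    [LocallyCompactSpace G] [SecondCountableTopology G] [MeasurableSpace G] [BorelSpace G]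
    [Monoid M] [TopologicalSpace M] [ContinuousMul M] [SecondCountableTopology M]
    [MeasurableSpace M] [BorelSpace M] (τ : G →* M) (hτ : Measurable τ) : Continuous τ := by
  have h1 : ContinuousAt τ 1 := by
    rw [ContinuousAt, map_one]
    intro U hU
    let φ : G → M × M := fun g => (τ g, τ g⁻¹)
    have hφ : Measurable φ := hτ.prodMk (hτ.comp measurable_inv)
    have h2 : ∀ g : G, ∃ N : Set (M × M), IsOpen N ∧ φ g ∈ N ∧ ∀ p ∈ N, ∀ q ∈ N, p.1 * q.2 ∈ U := by
      intro g
      have h3 : Tendsto (fun p : M × M => p.1 * p.2) (𝓝 (φ g)) (𝓝 1) := by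
        have := continuous_mul.tendsto (φ g)
        rwa [show (φ g).1 * (φ g).2 = 1 by simp [φ, ← map_mul]] at this
      obtain ⟨u, v, hu, hu', hv, hv', h⟩ := mem_nhds_prod_iff'.1 (h3 hU)
      exact ⟨u ×ˢ v, hu.prod hv, ⟨hu', hv'⟩, fun p hp q hq =>
        h (show (p.1, q.2) ∈ u ×ˢ v from ⟨hp.1, hq.2⟩)⟩
    choose N hN hN' hU' using h2
    obtain ⟨T, hT, hcov⟩ := TopologicalSpace.isOpen_iUnion_countable N hN
    obtain ⟨g, -, hg⟩ : ∃ g ∈ T, (Measure.haar : Measure G) (φ ⁻¹' N g) ≠ 0 := by
      by_contra hcon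
      push Not at hcon
      have h4 := (measure_biUnion_null_iff hT).2 hcon
      rw [← preimage_iUnion₂, hcov, eq_univ_of_forall (s := φ ⁻¹' ⋃ i, N i)
        fun x => mem_iUnion.2 ⟨x, hN' x⟩] at h4
      exact (isOpen_univ.measure_pos _ univ_nonempty).ne' h4
    refine mem_map.2 <| mem_of_superset (Measure.div_mem_nhds_one_of_haar_pos Measure.haar _
      (hφ (hN g).measurableSet) hg.bot_lt) ?_
    rintro _ ⟨x, hx, y, hy, rfl⟩
    have := hU' g _ hx _ hy
    simpa [φ, div_eq_mul_inv] using this
  refine continuous_iff_continuousAt.2 fun g => ?_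
  have h2 : τ = fun x => τ (x * g⁻¹) * τ g := funext fun x => by simp [← map_mul]
  rw [h2]
  exact (ContinuousAt.comp (by simpa using h1) (by fun_prop :
    ContinuousAt (fun x : G => x * g⁻¹) g)).mul continuousAt_const

/-- The unique zero of a Caratheodory function is measurable. -/
theorem measurable_of_zero {Ω Y : Type} [MeasurableSpace Ω] [MetricSpace Y] [ProperSpace Y]
    [MeasurableSpace Y] [BorelSpace Y] {F : Ω → Y → ℝ} (h1 : ∀ y, Measurable fun ω => F ω y)
    (h2 : ∀ ω, Continuous (F ω)) (h3 : ∀ ω y, 0 ≤ F ω y) {f : Ω → Y}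
    (h4 : ∀ ω y, F ω y = 0 ↔ y = f ω) : Measurable f := by
  have hK : ∀ K : Set Y, IsCompact K → MeasurableSet (f ⁻¹' K) := by
    intro K hK
    obtain ⟨D, hDK, hD, hd⟩ := hK.isSeparable.exists_countable_dense_subset
    have e : f ⁻¹' K = ⋂ m : ℕ, ⋃ y ∈ D, {ω | F ω y < 1 / ((m : ℝ) + 1)} := by
      ext ω
      simp only [mem_preimage, mem_iInter, mem_iUnion, mem_ofPred_eq, exists_prop]
      refine ⟨fun h m => ?_, fun h => ?_⟩
      · obtain ⟨y, hy, hy'⟩ := mem_closure_iff.1 (hd h) {y | F ω y < 1 / ((m : ℝ) + 1)}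
          (isOpen_lt (h2 ω) continuous_const)
          (show F ω (f ω) < _ from ((h4 ω _).2 rfl).symm ▸ Nat.one_div_pos_of_nat)
        exact ⟨y, hy', hy⟩
      · obtain ⟨y₀, hy₀, -⟩ := h 0
        obtain ⟨y, hy, hmin⟩ := hK.exists_isMinOn ⟨y₀, hDK hy₀⟩ (h2 ω).continuousOn
        refine (h4 ω y).1 (le_antisymm (ge_of_tendsto' tendsto_one_div_add_atTop_nhds_zero_nat
          fun m => ?_) (h3 ω y)) ▸ hy
        obtain ⟨z, hz, hz'⟩ := h m
        exact (hmin (hDK hz)).trans hz'.le
    rw [e]
    exact MeasurableSet.iInter fun m => MeasurableSet.biUnion hD fun y _ =>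
      measurableSet_lt (h1 y) measurable_const
  refine measurable_of_isClosed fun s hs => ?_
  rw [← inter_univ s, ← iUnion_compactCovering, inter_iUnion, preimage_iUnion]
  exact MeasurableSet.iUnion fun m => hK _ ((isCompact_compactCovering Y m).inter_left hs)

variable {G X k V : Type} [Group G] [TopologicalSpace G] [IsTopologicalGroup G]
  [LocallyCompactSpace G] [SecondCountableTopology G] [MeasurableSpace G] [BorelSpace G]
  [MeasurableSpace X] [MulAction G X] [MeasurableSMul₂ G X] {μ : Measure X}
  [IsProbabilityMeasure μ] [NontriviallyNormedField k] [ProperSpace k] [NormedAddCommGroup V]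
  [NormedSpace k V]

theorem Co.measurable_coef (C : Co G μ k V) [MeasurableSpace k] [BorelSpace k] {n : ℕ}
    {w : Fin n → X →ₘ[μ] V} (hw : LinearIndependent k w) (f : X →ₘ[μ] V) {u : G → Fin n → k}
    (hu : ∀ g, C.rep g f = ∑ i, u g i • w i) : Measurable u := by
  let d : (Fin n → k) → G × X → ℝ := fun v p =>
    min 1 ‖C.c p.1 p.2 (f p.2) - ∑ i, v i • w i (p.1 • p.2)‖
  have hm : ∀ v, StronglyMeasurable (d v) := fun v => by
    have e1 : StronglyMeasurable fun p : G × X => C.c p.1 p.2 (f p.2) :=
      (by fun_prop : Continuous fun p : (V →L[k] V) × V => p.1 p.2).comp_stronglyMeasurable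
        (C.meas.prodMk (f.stronglyMeasurable.comp_measurable measurable_snd))
    have e2 : StronglyMeasurable fun p : G × X => ∑ i, v i • w i (p.1 • p.2) :=
      Finset.stronglyMeasurable_fun_sum _ fun i _ => ((w i).stronglyMeasurable.comp_measurable
        (measurable_fst.smul measurable_snd)).const_smul (v i)
    exact (measurable_const.min (e1.sub e2).norm.measurable).stronglyMeasurable
  have h0 : ∀ v p, 0 ≤ d v p := fun v p => le_min zero_le_one (norm_nonneg _)
  have hb : ∀ v p, ‖d v p‖ ≤ 1 := fun v p => by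
    rw [Real.norm_of_nonneg (h0 v p)]
    exact min_le_left _ _
  have hm' : ∀ v g, AEStronglyMeasurable (fun x => d v (g, x)) μ := fun v g =>
    ((hm v).comp_measurable measurable_prodMk_left).aestronglyMeasurable
  refine measurable_of_zero (F := fun g v => ∫ x, d v (g, x) ∂μ)
    (fun v => (hm v).integral_prod_right'.measurable)
    (fun g => continuous_of_dominated (fun v => hm' v g)
      (fun v => Eventually.of_forall fun x => hb v _) (integrable_const (1 : ℝ))
      (Eventually.of_forall fun x => by fun_prop))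
    (fun g v => integral_nonneg fun x => h0 v _) fun g v => ?_
  rw [integral_eq_zero_iff_of_nonneg (fun x => h0 v _)
    ((integrable_const (1 : ℝ)).mono' (hm' v g) (Eventually.of_forall fun x => hb v _))]
  have e : (fun x => d v (g, x)) =ᵐ[μ] 0 ↔ C.rep g f = ∑ i, v i • w i := by
    rw [C.rep_eq_iff]
    refine eventually_congr ?_
    filter_upwards [C.ae_smul g (coeFn_comb v w)] with x hx
    rw [hx]
    refine ⟨fun h => ?_, fun h => by simp [d, h]⟩
    rcases min_eq_iff.1 h with h | h
    · exact absurd h.1 one_ne_zero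
    · exact sub_eq_zero.1 (norm_eq_zero.1 h.1)
  rw [e, hu]
  exact ⟨fun h => (funext (Fintype.linearIndependent_iffₛ.1 hw _ _ h)).symm, fun h => h ▸ rfl⟩

theorem Co.exists_tau (C : Co G μ k V) {n : ℕ} {w : Fin n → X →ₘ[μ] V}
    (hw : LinearIndependent k w) (hinv : ∀ g j, C.rep g (w j) ∈ Submodule.span k (range w)) :
    ∃ τ : G →* Matrix (Fin n) (Fin n) k, Continuous τ ∧
      ∀ g j, C.rep g (w j) = ∑ i, τ g i j • w i := by
  choose u hu using fun g j => (Submodule.mem_span_range_iff_exists_fun k).1 (hinv g j)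
  have inj : ∀ v v' : Fin n → k, ∑ i, v i • w i = ∑ i, v' i • w i → v = v' := fun v v' h =>
    funext (Fintype.linearIndependent_iffₛ.1 hw _ _ h)
  let τ : G →* Matrix (Fin n) (Fin n) k :=
    { toFun := fun g => Matrix.of fun i j => u g j i
      map_one' := by
        ext i j
        refine congrFun (inj (u 1 j) (fun i => (1 : Matrix (Fin n) (Fin n) k) i j) ?_) i
        simp [hu, Matrix.one_apply]
      map_mul' := fun g h => by
        ext i j
        refine congrFun (inj (u (g * h) j) (fun i => ∑ l, u g l i * u h j l) ?_) i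
        rw [hu, map_mul, Module.End.mul_apply, ← hu h j, map_sum]
        simp only [map_smul, ← hu g, Finset.smul_sum, Finset.sum_smul, smul_smul]
        rw [Finset.sum_comm]
        simp only [mul_comm] }
  borelize k
  let : MeasurableSpace (Matrix (Fin n) (Fin n) k) :=
    inferInstanceAs (MeasurableSpace (Fin n → Fin n → k))
  have : BorelSpace (Matrix (Fin n) (Fin n) k) := inferInstanceAs (BorelSpace (Fin n → Fin n → k))
  have : SecondCountableTopology (Matrix (Fin n) (Fin n) k) :=
    inferInstanceAs (SecondCountableTopology (Fin n → Fin n → k))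
  refine ⟨τ, continuous_of_measurable τ (measurable_pi_lambda _ fun i => measurable_pi_lambda _
    fun j => (measurable_pi_apply i).comp
      (C.measurable_coef hw (w j) (u := fun g => u g j) fun g => (hu g j).symm)),
    fun g j => (hu g j).symm⟩

end Pool.Agent.P.MP_d483fb_an.Z.MS
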