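import Pool.Agent.P.MP_d483fb_an.Z.Lie.Defs

/-!
The derivative of a continuous homomorphism into a Banach algebra.
-/

open scoped Matrix Matrix.Norms.Operator Topology
open NormedSpace Filter Set

set_option linter.unusedSectionVars false

noncomputable section

namespace Pool.Agent.P.MP_d483fb_an.Z.MS

section Banach

variable {B : Type} [NormedRing B] [NormedAlgebra ℝ B] [CompleteSpace B]

theorem mlog_exp : ∀ᶠ x in 𝓝 (0 : B), mlog (exp x) = x :=
  (hasStrictFDerivAt_exp_zero (𝕂 := ℝ) (𝔸 := B)).eventually_left_inverse (f := exp)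
    (f' := ContinuousLinearEquiv.refl ℝ B) (a := 0)

theorem mlog_hasFDerivAt : HasFDerivAt (mlog : B → B) (ContinuousLinearMap.id ℝ B) 1 := by
  have h := ((hasStrictFDerivAt_exp_zero (𝕂 := ℝ) (𝔸 := B)).to_localInverse (f := exp)
    (f' := ContinuousLinearEquiv.refl ℝ B) (a := 0)).hasFDerivAt
  rw [exp_zero] at h
  exact h

theorem mlog_one : mlog (1 : B) = 0 := by
  have := (mlog_exp (B := B)).self_of_nhds
  rwa [exp_zero] at this

theorem hasDerivAt_exp_zero' (x : B) : HasDerivAt (fun t : ℝ => exp (t • x)) x 0 := by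
  simpa using hasDerivAt_exp_smul_const x (0 : ℝ)

/-- First order Campbell-Hausdorff formula. -/
theorem tendsto_mlog_mul (x y : B) :
    Tendsto (fun t : ℝ => t⁻¹ • mlog (exp (t • x) * exp (t • y))) (𝓝[≠] 0) (𝓝 (x + y)) := by
  have h1 : HasDerivAt (fun t : ℝ => exp (t • x) * exp (t • y)) (x + y) 0 := by
    simpa using (hasDerivAt_exp_zero' x).fun_mul (hasDerivAt_exp_zero' y)
  have h2 : HasFDerivAt (mlog : B → B) (ContinuousLinearMap.id ℝ B)
      (exp ((0 : ℝ) • x) * exp ((0 : ℝ) • y)) := by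
    simpa using mlog_hasFDerivAt (B := B)
  have h3 := hasDerivAt_iff_tendsto_slope_zero.1 (h2.comp_hasDerivAt (0 : ℝ) h1)
  simpa [mlog_one] using h3

theorem isUnit_integral {γ : ℝ → B} (hc : Continuous γ)
    (hu : ∀ t ∈ Icc (0 : ℝ) 1, ‖γ t - 1‖ ≤ 1 / 2) : IsUnit (∫ s in (0 : ℝ)..1, γ s) := by
  have h1 : (1 : B) - ∫ s in (0 : ℝ)..1, γ s = ∫ s in (0 : ℝ)..1, (1 - γ s) := by
    rw [intervalIntegral.integral_sub (by simp) (hc.intervalIntegrable _ _)]
    simp
  have h2 : ‖(1 : B) - ∫ s in (0 : ℝ)..1, γ s‖ ≤ 1 / 2 * |(1 : ℝ) - 0| := by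
    rw [h1]
    refine intervalIntegral.norm_integral_le_of_norm_le_const fun s hs => ?_
    rw [norm_sub_rev]
    rw [uIoc_of_le zero_le_one] at hs
    exact hu s ⟨hs.1.le, hs.2⟩
  have h3 := (Units.oneSub ((1 : B) - ∫ s in (0 : ℝ)..1, γ s) (by
    refine h2.trans_lt ?_
    norm_num)).isUnit
  simpa using h3

/-- A continuous one parameter group that stays close to `1` up to time one. -/
theorem oneParam_small {γ : ℝ → B} (hc : Continuous γ) (h0 : γ 0 = 1)
    (hadd : ∀ s t, γ (s + t) = γ s * γ t) (hu : ∀ t ∈ Icc (0 : ℝ) 1, ‖γ t - 1‖ ≤ 1 / 2) (t : ℝ) :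
    γ t = exp (t • ((γ 1 - 1) * Ring.inverse (∫ s in (0 : ℝ)..1, γ s))) := by
  have hU := isUnit_integral hc hu
  set u := ∫ s in (0 : ℝ)..1, γ s with hu'
  set Z := (γ 1 - 1) * Ring.inverse u with hZ
  have hF : ∀ x : ℝ, HasDerivAt (fun x : ℝ => ∫ s in (0 : ℝ)..x, γ s) (γ x) x := fun x =>
    (hc.integral_hasStrictDerivAt 0 x).hasDerivAt
  have h1 : ∀ x : ℝ, γ x = ((∫ s in (0 : ℝ)..(x + 1), γ s) - ∫ s in (0 : ℝ)..x, γ s) *
      Ring.inverse u := by
    intro x
    rw [intervalIntegral.integral_interval_sub_left (hc.intervalIntegrable _ _)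
      (hc.intervalIntegrable _ _)]
    have h2 : ∫ s in x..(x + 1), γ s = ∫ s in (0 : ℝ)..1, γ (x + s) := by
      rw [intervalIntegral.integral_comp_add_left γ x, add_zero]
    have h3 : ∫ s in (0 : ℝ)..1, γ (x + s) = γ x * u := by
      simp only [hadd]
      exact (ContinuousLinearMap.mul ℝ B (γ x)).intervalIntegral_comp_comm
        (hc.intervalIntegrable _ _)
    rw [h2, h3, mul_assoc, Ring.mul_inverse_cancel _ hU, mul_one]
  have h4 : ∀ x : ℝ, HasDerivAt γ (γ x * Z) x := by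
    intro x
    have h5 := (((hF (x + 1)).comp_add_const x 1).sub (hF x)).mul_const (Ring.inverse u)
    have h6 : (γ (x + 1) - γ x) * Ring.inverse u = γ x * Z := by
      rw [hZ, hadd, ← mul_assoc, mul_sub, mul_one]
    rw [h6] at h5
    exact h5.congr_of_eventuallyEq (Eventually.of_forall h1)
  have h7 : ∀ x : ℝ, HasDerivAt (fun x : ℝ => γ x * exp (x • (-Z))) 0 x := by
    intro x
    have h8 := (h4 x).mul (hasDerivAt_exp_smul_const' (-Z) x)
    have h9 : γ x * Z * exp (x • (-Z)) + γ x * (-Z * exp (x • (-Z))) = 0 := by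
      rw [neg_mul, mul_neg, mul_assoc, add_neg_cancel]
    rw [h9] at h8
    exact h8
  have h10 : γ t * exp (t • (-Z)) = γ 0 * exp ((0 : ℝ) • (-Z)) :=
    is_const_of_deriv_eq_zero (fun x => (h7 x).differentiableAt) (fun x => (h7 x).deriv) t 0
  have h11 : exp (t • (-Z)) * exp (t • Z) = 1 := by
    let _ : NormedAlgebra ℚ B := NormedAlgebra.restrictScalars ℚ ℝ B
    rw [← exp_add_of_commute (((Commute.refl Z).neg_left.smul_left t).smul_right t)]
    simp
  calc γ t = γ t * exp (t • (-Z)) * exp (t • Z) := by rw [mul_assoc, h11, mul_one]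
    _ = exp (t • Z) := by rw [h10, h0]; simp

end Banach

variable {G : Type} [Group G] [TopologicalSpace G] [IsTopologicalGroup G] {n : ℕ}
  (D : ExpData G n)

theorem rho_inv_mul {x y : G} (h : D.ρ x = D.ρ y) : D.ρ (x⁻¹ * y) = 1 := by
  rw [map_mul, ← h, ← map_mul, inv_mul_cancel, map_one]

/-- Uniqueness of lifts of curves. -/
theorem lift_unique {f g : ℝ → G} (hf : Continuous f) (hg : Continuous g)
    (h : ∀ t, D.ρ (f t) = D.ρ (g t)) (h0 : f 0 = g 0) (t : ℝ) : f t = g t := by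
  have hc : Continuous fun s => (f s)⁻¹ * g s := hf.inv.mul hg
  have hl : IsLocallyConstant fun s => (f s)⁻¹ * g s := by
    rw [IsLocallyConstant.iff_eventually_eq]
    intro s
    have h1 : Tendsto (fun r => ((f s)⁻¹ * g s)⁻¹ * ((f r)⁻¹ * g r)) (𝓝 s) (𝓝 1) := by
      have := (hc.tendsto s).const_mul ((f s)⁻¹ * g s)⁻¹
      rwa [inv_mul_cancel] at this
    filter_upwards [h1.eventually D.disc] with r hr
    have h2 := hr (rho_inv_mul D (by rw [rho_inv_mul D (h s), rho_inv_mul D (h r)]))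
    exact (inv_mul_eq_one.1 h2).symm
  have h3 := hl.apply_eq_of_preconnectedSpace t 0
  rw [h0, inv_mul_cancel] at h3
  exact inv_mul_eq_one.1 h3

theorem continuous_ex_smul {X : Mat n} (hX : X ∈ D.g) : Continuous fun t : ℝ => D.ex (t • X) :=
  D.ex_cont.comp_continuous (continuous_id.smul continuous_const) fun t => D.g.smul_mem t hX

theorem ex_add_smul {X : Mat n} (hX : X ∈ D.g) (s t : ℝ) :
    D.ex ((s + t) • X) = D.ex (s • X) * D.ex (t • X) := by
  refine lift_unique D (f := fun t => D.ex ((s + t) • X)) (g := fun t => D.ex (s • X) * D.ex (t • X))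
    ((continuous_ex_smul D hX).comp (continuous_const.add continuous_id))
    (continuous_const.mul (continuous_ex_smul D hX)) (fun r => ?_) (by simp [D.ex_zero]) t
  rw [map_mul, D.ρ_ex _ (D.g.smul_mem _ hX), D.ρ_ex _ (D.g.smul_mem _ hX),
    D.ρ_ex _ (D.g.smul_mem _ hX), add_smul,
    Matrix.exp_add_of_commute _ _ (((Commute.refl X).smul_left s).smul_right r)]

/-- Products of two one parameter groups in the exponential chart. -/
theorem ex_mul_ex {X Y : Mat n} (hX : X ∈ D.g) (hY : Y ∈ D.g) :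
    ∀ᶠ t : ℝ in 𝓝 0, mlog (exp (t • X) * exp (t • Y)) ∈ D.g ∧
      D.ex (mlog (exp (t • X) * exp (t • Y))) = D.ex (t • X) * D.ex (t • Y) := by
  have h1 : D.ex '' ({Z | mlog (exp Z) = Z} ∩ D.g) ∈ 𝓝 (1 : G) := by
    rw [← D.ex_nhds]
    exact image_mem_map (inter_mem (mem_nhdsWithin_of_mem_nhds mlog_exp) self_mem_nhdsWithin)
  have h2 : Tendsto (fun t : ℝ => D.ex (t • X) * D.ex (t • Y)) (𝓝 0) (𝓝 1) := by
    have := ((continuous_ex_smul D hX).tendsto 0).mul ((continuous_ex_smul D hY).tendsto 0)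
    simpa [D.ex_zero] using this
  filter_upwards [h2.eventually h1] with t ht
  obtain ⟨Z, ⟨hZ, hZg⟩, hZe⟩ := ht
  have h3 : exp (t • X) * exp (t • Y) = exp Z := by
    rw [← D.ρ_ex _ hZg, hZe, map_mul, D.ρ_ex _ (D.g.smul_mem _ hX), D.ρ_ex _ (D.g.smul_mem _ hY)]
  rw [h3, hZ]
  exact ⟨hZg, hZe⟩

/-- A continuous homomorphism into a Banach algebra has a linear derivative. -/
theorem exists_dhom {B : Type} [NormedRing B] [NormedAlgebra ℝ B] [CompleteSpace B]
    (φ : G →* B) (hφ : Continuous φ) :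
    ∃ d : D.g →ₗ[ℝ] B, ∀ X : D.g, φ (D.ex X) = exp (d X) := by
  set F : D.g → B := fun X => φ (D.ex X) with hF
  have hFc : Continuous F := hφ.comp D.ex_cont.domRestrict
  have hF0 : F 0 = 1 := by simp [hF, D.ex_zero]
  have hFa : ∀ (X : D.g) (s t : ℝ), F ((s + t) • X) = F (s • X) * F (t • X) := by
    intro X s t
    simp only [hF, Submodule.coe_smul]
    rw [ex_add_smul D X.2, map_mul]
  obtain ⟨r, hr, hball⟩ : ∃ r > 0, ∀ X : D.g, ‖X‖ < r → ‖F X - 1‖ ≤ 1 / 2 := by
    obtain ⟨r, hr, h⟩ := Metric.continuousAt_iff.1 (hFc.continuousAt (x := 0)) (1 / 2) (by norm_num)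
    refine ⟨r, hr, fun X hX => ?_⟩
    have := h (x := X) (by simpa using hX)
    rw [hF0, dist_eq_norm] at this
    exact this.le
  have hcs : ∀ X : D.g, Continuous fun t : ℝ => F (t • X) := fun X =>
    hFc.comp (continuous_id.smul continuous_const)
  have hsm : ∀ X : D.g, ‖X‖ < r → ∀ t ∈ Icc (0 : ℝ) 1, ‖F (t • X) - 1‖ ≤ 1 / 2 := by
    intro X hX t ht
    refine hball _ ?_
    rw [norm_smul, Real.norm_of_nonneg ht.1]
    exact (mul_le_of_le_one_left (norm_nonneg _) ht.2).trans_lt hX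
  set P : D.g → B := fun X => (F X - 1) * Ring.inverse (∫ s in (0 : ℝ)..1, F (s • X)) with hP
  have hPe : ∀ X : D.g, ‖X‖ < r → ∀ t : ℝ, F (t • X) = exp (t • P X) := by
    intro X hX t
    have := oneParam_small (hcs X) (by simpa using hF0) (hFa X) (hsm X hX) t
    rwa [one_smul] at this
  set d : D.g → B := fun X => deriv (fun t : ℝ => F (t • X)) 0 with hd
  have huniq : ∀ (X : D.g) (Z : B), (∀ t : ℝ, F (t • X) = exp (t • Z)) → d X = Z := by
    intro X Z h
    simp only [hd, h]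
    exact (hasDerivAt_exp_zero' Z).deriv
  have hsmall : ∀ X : D.g, ∃ c : ℝ, 0 < c ∧ ‖c • X‖ < r := by
    intro X
    have h1 : Tendsto (fun c : ℝ => ‖c • X‖) (𝓝[>] 0) (𝓝 0) := by
      have : Continuous fun c : ℝ => ‖c • X‖ := (continuous_id.smul continuous_const).norm
      simpa using (this.tendsto 0).mono_left nhdsWithin_le_nhds
    obtain ⟨c, hc1, hc2⟩ := ((h1.eventually (gt_mem_nhds hr)).and self_mem_nhdsWithin).exists
    exact ⟨c, hc2, hc1⟩
  have hde : ∀ (X : D.g) (t : ℝ), F (t • X) = exp (t • d X) := by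
    intro X
    obtain ⟨c, hc, hcX⟩ := hsmall X
    have h1 : ∀ t : ℝ, F (t • X) = exp (t • (c⁻¹ • P (c • X))) := by
      intro t
      have := hPe _ hcX (t * c⁻¹)
      rwa [smul_smul, mul_assoc, inv_mul_cancel₀ hc.ne', mul_one, ← smul_smul] at this
    rw [huniq X _ h1]
    exact h1
  have hds : ∀ (c : ℝ) (X : D.g), d (c • X) = c • d X := by
    intro c X
    refine huniq _ _ fun t => ?_
    rw [smul_smul, smul_smul, hde]
  have hdc : ∀ X : D.g, ‖X‖ < r → ContinuousAt d X := by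
    intro X hX
    have h1 : Continuous fun X : D.g => ∫ s in (0 : ℝ)..1, F (s • X) :=
      intervalIntegral.continuous_parametric_intervalIntegral_of_continuous'
        (f := fun (X : D.g) (s : ℝ) => F (s • X))
        (hFc.comp (continuous_snd.smul continuous_fst)) 0 1
    obtain ⟨u, hu⟩ := isUnit_integral (hcs X) (hsm X hX)
    have h2 : ContinuousAt (fun X : D.g => Ring.inverse (∫ s in (0 : ℝ)..1, F (s • X))) X :=
      ContinuousAt.comp_of_eq (f := fun X : D.g => ∫ s in (0 : ℝ)..1, F (s • X))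
        (NormedRing.inverse_continuousAt u) h1.continuousAt hu.symm
    have h3 : ContinuousAt P X := (hFc.continuousAt.sub continuousAt_const).mul h2
    refine h3.congr ?_
    filter_upwards [(isOpen_lt continuous_norm continuous_const).mem_nhds hX] with Y hY
    exact (huniq Y _ (hPe Y hY)).symm
  have hda' : ∀ X Y : D.g, ‖X + Y‖ < r → d (X + Y) = d X + d Y := by
    intro X Y hXY
    classical
    set W : ℝ → D.g := fun t =>
      if h : mlog (exp (t • X.1) * exp (t • Y.1)) ∈ D.g then t⁻¹ • ⟨_, h⟩ else 0 with hW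
    have hev := ex_mul_ex D X.2 Y.2
    have h1 : Tendsto W (𝓝[≠] 0) (𝓝 (X + Y)) := by
      rw [tendsto_subtype_rng]
      refine (tendsto_mlog_mul X.1 Y.1).congr' ?_
      filter_upwards [mem_nhdsWithin_of_mem_nhds hev] with t ht
      simp only [hW, dif_pos ht.1]
      rfl
    have h2 : Tendsto (fun t => d (W t)) (𝓝[≠] 0) (𝓝 (d (X + Y))) := (hdc _ hXY).tendsto.comp h1
    have h3 : Tendsto (fun t : ℝ => t • d (W t)) (𝓝[≠] 0) (𝓝 0) := by
      have := (tendsto_id.mono_left (nhdsWithin_le_nhds (a := (0 : ℝ)) (s := {0}ᶜ))).smul h2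
      simpa using this
    refine tendsto_nhds_unique h2 ((tendsto_mlog_mul (d X) (d Y)).congr' ?_)
    filter_upwards [mem_nhdsWithin_of_mem_nhds hev, h3.eventually mlog_exp, self_mem_nhdsWithin]
      with t ht h4 ht0
    have ht0' : t ≠ 0 := ht0
    have h5 : exp (t • d X) * exp (t • d Y) = exp (t • d (W t)) := by
      rw [← hde, ← hde, ← hde]
      simp only [hF, hW, dif_pos ht.1, Submodule.coe_smul, smul_smul, mul_inv_cancel₀ ht0',
        one_smul]
      rw [ht.2, map_mul]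
    rw [h5, h4, smul_smul, inv_mul_cancel₀ ht0', one_smul]
  have hda : ∀ X Y : D.g, d (X + Y) = d X + d Y := by
    intro X Y
    obtain ⟨c, hc, hcX⟩ := hsmall (X + Y)
    rw [smul_add] at hcX
    have h1 := hda' _ _ hcX
    rw [← smul_add, hds, hds, hds, ← smul_add] at h1
    exact smul_right_injective B hc.ne' h1
  refine ⟨⟨⟨d, hda⟩, hds⟩, fun X => ?_⟩
  have := hde X 1
  rwa [one_smul, one_smul] at this

end Pool.Agent.P.MP_d483fb_an.Z.MS
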