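import Pool.Agent.P.MP_d483fb_an.Z.MS.Ker

/-!
A section that is invariant under a commuting family lies in a finite dimensional invariant space.
-/

open MeasureTheory Filter Set Topology
open scoped Pointwise

set_option linter.unusedSectionVars false

noncomputable section

namespace Pool.Agent.P.MP_d483fb_an.Z.MS

/-- If the orbit of a neighbourhood of `1` spans a finite dimensional space, so does the orbit. -/
theorem exists_fin_of_nhds {G k S : Type} [Group G] [TopologicalSpace G] [IsTopologicalGroup G]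
    [PreconnectedSpace G] [Field k] [AddCommGroup S] [Module k S] (ρ : G →* Module.End k S)
    (p : S) {O : Set G} (hO : O ∈ 𝓝 (1 : G)) {W₁ : Submodule k S} [FiniteDimensional k W₁]
    (h : ∀ g ∈ O, ρ g p ∈ W₁) :
    ∃ W : Submodule k S, FiniteDimensional k W ∧ p ∈ W ∧ ∀ g, ∀ w ∈ W, ρ g w ∈ W := by
  let sp : Set G → Submodule k S := fun U => Submodule.span k ((fun g => ρ g p) '' U)
  have mono : ∀ {U U' : Set G}, U ⊆ U' → sp U ≤ sp U' := fun h =>
    Submodule.span_mono (image_mono h)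
  have hfin : ∀ U ⊆ O, FiniteDimensional k (sp U) := fun U hU =>
    Submodule.finiteDimensional_of_le (S₂ := W₁) (Submodule.span_le.2 (by
      rintro _ ⟨g, hg, rfl⟩
      exact h g (hU hg)))
  obtain ⟨⟨U, hU, hUO⟩, hmin⟩ := (wellFounded_lt (α := ℕ)).onFun
    (f := fun U : {U : Set G // U ∈ 𝓝 (1 : G) ∧ U ⊆ O} => Module.finrank k (sp U.1))
      |>.has_min univ ⟨⟨O, hO, Subset.rfl⟩, mem_univ _⟩
  obtain ⟨U₁, hU₁, h1, hsub⟩ := exists_open_nhds_one_mul_subset hU
  have hU₁U : U₁ ⊆ U := fun g hg => hsub (by simpa using Set.mul_mem_mul hg h1)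
  have := hfin U hUO
  have e : sp U₁ = sp U := Submodule.eq_of_le_of_finrank_le (mono hU₁U)
    (not_lt.1 (hmin.2 ⟨U₁, hU₁.mem_nhds h1, hU₁U.trans hUO⟩ (mem_univ _)))
  have hinv : ∀ g ∈ U₁, ∀ w ∈ sp U, ρ g w ∈ sp U := by
    intro g hg w hw
    rw [← e] at hw
    refine (Submodule.span_le (p := (sp U).comap (ρ g))).2 ?_ hw
    rintro _ ⟨g', hg', rfl⟩
    exact Submodule.subset_span ⟨g * g', hsub (Set.mul_mem_mul hg hg'), by simp⟩
  let H : Subgroup G :=
    { carrier := {g | ∀ w ∈ sp U, ρ g w ∈ sp U ∧ ρ g⁻¹ w ∈ sp U}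
      one_mem' := fun w hw => by simpa using hw
      mul_mem' := fun {g g'} hg hg' w hw => by
        rw [mul_inv_rev, map_mul, map_mul]
        exact ⟨(hg _ (hg' w hw).1).1, (hg' _ (hg w hw).2).2⟩
      inv_mem' := fun {g} hg w hw => by
        rw [inv_inv]
        exact (hg w hw).symm }
  have hH : (H : Set G) ∈ 𝓝 (1 : G) := by
    filter_upwards [hU₁.mem_nhds h1, inv_mem_nhds_one G (hU₁.mem_nhds h1)] with g e1 e2 w hw
    exact ⟨hinv g e1 w hw, hinv _ e2 w hw⟩
  have hop := H.isOpen_of_mem_nhds hH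
  have huniv := (IsClopen.eq_univ ⟨H.isClosed_of_isOpen hop, hop⟩ ⟨1, H.one_mem⟩)
  refine ⟨sp U, this, Submodule.subset_span ⟨1, mem_of_mem_nhds hU, by simp⟩, fun g w hw => ?_⟩
  exact ((show g ∈ (H : Set G) from huniv ▸ mem_univ g) w hw).1

variable {G X k V : Type} [Group G] [MeasurableSpace G] [MeasurableSpace X] [MulAction G X]
  {μ : Measure X} [IsProbabilityMeasure μ] [NontriviallyNormedField k] [ProperSpace k]
  [NormedAddCommGroup V] [NormedSpace k V] [FiniteDimensional k V] (C : Co G μ k V)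

/-- The centraliser of an ergodic element `h` moves a finite dimensional `h`-invariant space
inside a finite dimensional space. -/
theorem Co.exists_cent {h : G} (hh : Ergodic (fun x : X => h • x) μ)
    (W : Submodule k (X →ₘ[μ] V)) [FiniteDimensional k W] (hW : ∀ w ∈ W, C.rep h w ∈ W) :
    ∃ W' : Submodule k (X →ₘ[μ] V), FiniteDimensional k W' ∧
      (∀ z, Commute z h → ∀ w ∈ W, C.rep z w ∈ W') ∧
      ∀ z, Commute z h → ∀ w ∈ W', C.rep z w ∈ W' := by
  let b := Module.finBasis k W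
  have hb : ∀ w : W, (w : X →ₘ[μ] V) = ∑ j, b.repr w j • (b j : X →ₘ[μ] V) := fun w => by
    conv_lhs => rw [← b.sum_repr w]
    simp only [Submodule.coe_sum, Submodule.coe_smul]
  let T : Fin (Module.finrank k W) → Fin (Module.finrank k W) → k := fun i j =>
    b.repr ⟨C.rep h (b j), hW _ (b j).2⟩ i
  have hT : ∀ j, C.rep h (b j) = ∑ i, T i j • (b i : X →ₘ[μ] V) := fun j =>
    hb ⟨C.rep h (b j), hW _ (b j).2⟩
  have := C.finite_eig hh T
  let W₀ : Submodule k (X →ₘ[μ] V) := ⨆ j, (C.eig h T).map (LinearMap.proj j)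
  have h0 : ∀ z, Commute z h → ∀ w ∈ W, C.rep z w ∈ W₀ := by
    intro z hz w hw
    have e : w = ∑ j, b.repr ⟨w, hw⟩ j • (b j : X →ₘ[μ] V) := hb ⟨w, hw⟩
    rw [e, map_sum]
    refine Submodule.sum_mem _ fun j _ => ?_
    rw [map_smul]
    refine Submodule.smul_mem _ _ (Submodule.mem_iSup_of_mem j
      ⟨fun i => C.rep z (b i), fun i => ?_, rfl⟩)
    rw [← Module.End.mul_apply, ← map_mul, ← hz.eq, map_mul, Module.End.mul_apply, hT, map_sum]
    simp only [map_smul]
  refine ⟨Submodule.span k {v | ∃ z, Commute z h ∧ ∃ w ∈ W, v = C.rep z w},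
    Submodule.finiteDimensional_of_le (S₂ := W₀) (Submodule.span_le.2 ?_),
    fun z hz w hw => Submodule.subset_span ⟨z, hz, w, hw, rfl⟩, fun z hz w hw => ?_⟩
  · rintro _ ⟨z, hz, w, hw, rfl⟩
    exact h0 z hz w hw
  · refine Submodule.mem_comap.1 (Submodule.span_le.2 ?_ hw)
    rintro _ ⟨z', hz', w, hw, rfl⟩
    exact Submodule.subset_span ⟨z * z', hz.mul_left hz', w, hw, by simp⟩

theorem Co.exists_chain {A : Type} {a : A → G} (ha : ∀ t t', Commute (a t) (a t'))
    {f : X →ₘ[μ] V} (hf : ∀ t, C.rep (a t) f = f) (s : ℕ) (t : Fin s → A)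
    (ht : ∀ i, Ergodic (fun x : X => a (t i) • x) μ) :
    ∃ W : Submodule k (X →ₘ[μ] V), FiniteDimensional k W ∧ (∀ u, ∀ w ∈ W, C.rep (a u) w ∈ W) ∧
      ∀ z : Fin s → G, (∀ i, Commute (z i) (a (t i))) → C.rep (List.ofFn z).prod f ∈ W := by
  induction s with
  | zero =>
    refine ⟨Submodule.span k {f}, inferInstance, fun u w hw => ?_, fun z _ => ?_⟩
    · obtain ⟨c, rfl⟩ := Submodule.mem_span_singleton.1 hw
      rwa [map_smul, hf]
    · simp
  | succ s ih =>
    obtain ⟨W, h1, h2, h3⟩ := ih (fun i => t i.succ) fun i => ht i.succ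
    obtain ⟨W', e1, e2, e3⟩ := C.exists_cent (ht 0) W (h2 _)
    refine ⟨W', e1, fun u => e3 _ (ha _ _), fun z hz => ?_⟩
    rw [List.ofFn_succ, List.prod_cons, map_mul, Module.End.mul_apply]
    exact e2 _ (hz 0) _ (h3 _ fun i => hz i.succ)

theorem Co.exists_fin_abs [TopologicalSpace G] [IsTopologicalGroup G] [PreconnectedSpace G]
    {A : Type} {a : A → G} (ha : ∀ t t', Commute (a t) (a t')) {s : ℕ} {t : Fin s → A}
    (ht : ∀ i, Ergodic (fun x : X => a (t i) • x) μ)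
    (hO : {g | ∃ z : Fin s → G, (∀ i, Commute (z i) (a (t i))) ∧ g = (List.ofFn z).prod} ∈
      𝓝 (1 : G)) {f : X →ₘ[μ] V} (hf : ∀ t, C.rep (a t) f = f) :
    ∃ W : Submodule k (X →ₘ[μ] V), FiniteDimensional k W ∧ f ∈ W ∧
      ∀ g, ∀ w ∈ W, C.rep g w ∈ W := by
  obtain ⟨W, h1, -, h3⟩ := C.exists_chain ha hf s t ht
  refine exists_fin_of_nhds C.rep f hO (W₁ := W) ?_
  rintro _ ⟨z, hz, rfl⟩
  exact h3 z hz

end Pool.Agent.P.MP_d483fb_an.Z.MS
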