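import Pool.Agent.P.MP_d483fb_an.Z.MS.Rep

/-!
Kernels that are invariant under an ergodic map are constant; invariant sections form a finite
dimensional space.
-/

open MeasureTheory Filter Set Topology Metric

set_option linter.unusedSectionVars false

noncomputable section

namespace Pool.Agent.P.MP_d483fb_an.Z.MS

variable {X k F E : Type} [MeasurableSpace X] {μ : Measure X} [NontriviallyNormedField k]
  [NormedAddCommGroup F] [NormedSpace k F] [NormedAddCommGroup E] [NormedSpace k E]

theorem isClosed_ker {K : Set F} (hK : IsCompact K) :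
    IsClosed {L : F →L[k] E | ∃ v ∈ K, L v = 0} := by
  have : CompactSpace K := isCompact_iff_compactSpace.1 hK
  have h1 : IsClosed {p : (F →L[k] E) × K | p.1 (p.2 : F) = 0} :=
    isClosed_eq (by fun_prop) continuous_const
  convert isClosedMap_fst_of_compactSpace _ h1 using 1
  ext L
  simp

theorem nullMeasurableSet_ker {K : Set F} (hK : IsCompact K) {L : X → F →L[k] E}
    (hL : AEStronglyMeasurable L μ) : NullMeasurableSet {x | ∃ v ∈ K, L x v = 0} μ := by
  borelize (F →L[k] E)
  exact hL.aemeasurable.nullMeasurableSet_preimage (isClosed_ker hK).measurableSet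

theorem ae_injective [IsFiniteMeasure μ] [ProperSpace F] {T : X → X} (hT : Ergodic T μ)
    {L : X → F →L[k] E} (hL : AEStronglyMeasurable L μ)
    (hinv : ∀ᵐ x ∂μ, ∀ v, L (T x) v = 0 → L x v = 0)
    (hind : ∀ v, (∀ᵐ x ∂μ, L x v = 0) → v = 0) : ∀ᵐ x ∂μ, Function.Injective (L x) := by
  have key : ∀ v : F, v ≠ 0 → ∃ ε > 0, ∀ᵐ x ∂μ, ∀ w ∈ closedBall v ε, L x w ≠ 0 := by
    intro v hv
    by_contra hcon
    push Not at hcon
    refine hv (hind v ?_)
    have h1 : ∀ n : ℕ, ∀ᵐ x ∂μ, ∃ w ∈ closedBall v (1 / ((n : ℝ) + 1)), L x w = 0 := by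
      intro n
      have h2 : T ⁻¹' {x | ∃ w ∈ closedBall v (1 / ((n : ℝ) + 1)), L x w = 0} ≤ᵐ[μ]
          {x | ∃ w ∈ closedBall v (1 / ((n : ℝ) + 1)), L x w = 0} := by
        filter_upwards [hinv] with x hx hx'
        obtain ⟨w, hw, hw'⟩ := hx'
        exact ⟨w, hw, hx w hw'⟩
      rcases hT.ae_empty_or_univ_of_preimage_ae_le
        (nullMeasurableSet_ker (isCompact_closedBall v _) hL) h2 with h | h
      · refine absurd (hcon _ (Nat.one_div_pos_of_nat (n := n))) (not_frequently.2 ?_)
        filter_upwards [h.mem_iff] with x hx hx'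
        exact hx.1 hx'
      · filter_upwards [h.mem_iff] with x hx
        exact hx.2 (mem_univ x)
    filter_upwards [ae_all_iff.2 h1] with x hx
    choose w hw hw' using hx
    have h3 : Tendsto w atTop (𝓝 v) := tendsto_iff_dist_tendsto_zero.2
      (squeeze_zero (fun _ => dist_nonneg) (fun n => mem_closedBall.1 (hw n))
        tendsto_one_div_add_atTop_nhds_zero_nat)
    have h4 := ((L x).continuous.tendsto v).comp h3
    rw [show (L x) ∘ w = fun _ => 0 from funext hw'] at h4
    exact tendsto_nhds_unique h4 tendsto_const_nhds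
  choose! ε hε hk using key
  obtain ⟨c, hc⟩ := NormedField.exists_one_lt_norm k
  have hK : IsCompact {v : F | 1 / ‖c‖ ≤ ‖v‖ ∧ ‖v‖ ≤ 1} :=
    (isCompact_closedBall (0 : F) 1).of_isClosed_subset
      ((isClosed_le continuous_const continuous_norm).inter
        (isClosed_le continuous_norm continuous_const)) fun v hv => by simpa using hv.2
  have hne : ∀ v ∈ {v : F | 1 / ‖c‖ ≤ ‖v‖ ∧ ‖v‖ ≤ 1}, v ≠ 0 := fun v hv =>
    norm_pos_iff.1 (lt_of_lt_of_le (by positivity) hv.1)
  obtain ⟨s, hs, hcov⟩ := hK.elim_nhds_subcover (fun v => closedBall v (ε v))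
    fun v hv => closedBall_mem_nhds v (hε v (hne v hv))
  filter_upwards [(ae_ball_iff s.countable_toSet).2 fun v hv => hk v (hne v (hs v hv))] with x hx
  refine (injective_iff_map_eq_zero _).2 fun v hv => by_contra fun h0 => ?_
  obtain ⟨d, -, h1, h2, -⟩ := rescale_to_shell hc one_pos h0
  obtain ⟨u, hu, hu'⟩ := mem_iUnion₂.1 (hcov (show d • v ∈ _ from ⟨h2, h1.le⟩))
  exact hx u hu _ hu' (by rw [map_smul, hv, smul_zero])

variable {G V : Type} [Group G] [MeasurableSpace G] [MulAction G X] [IsProbabilityMeasure μ]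
  [ProperSpace k] [NormedAddCommGroup V] [NormedSpace k V] [FiniteDimensional k V]

/-- The evaluation map of a finite family of tuples of vectors. -/
def evK {ι κ : Type} [Fintype ι] [Fintype κ] (u : ι → κ → V) : (ι → k) →L[k] (κ → V) :=
  ∑ a, (ContinuousLinearMap.proj a : (ι → k) →L[k] k).smulRight (u a)

theorem evK_apply {ι κ : Type} [Fintype ι] [Fintype κ] (u : ι → κ → V) (v : ι → k) (j : κ) :
    evK u v j = ∑ a, v a • u a j := by
  simp [evK, Finset.sum_apply]

theorem continuous_evK {ι κ : Type} [Fintype ι] [Fintype κ] :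
    Continuous (evK : (ι → κ → V) → (ι → k) →L[k] (κ → V)) :=
  continuous_finsetSum _ fun a _ =>
    (ContinuousLinearMap.smulRightL k (ι → k) (κ → V) (ContinuousLinearMap.proj a)).continuous.comp
      (continuous_apply a)

theorem aesm_evK {ι κ : Type} [Fintype ι] [Fintype κ] (Φ : ι → κ → X →ₘ[μ] V) :
    AEStronglyMeasurable (fun x => (evK fun a j => Φ a j x : (ι → k) →L[k] (κ → V))) μ := by
  refine continuous_evK.comp_aestronglyMeasurable ?_
  have : SecondCountableTopology V := by
    have := FiniteDimensional.proper k V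
    infer_instance
  borelize V
  exact (aemeasurable_pi_lambda _ fun a => aemeasurable_pi_lambda _ fun j =>
    (Φ a j).aemeasurable).aestronglyMeasurable

/-- Tuples of sections that transform under `h` by the matrix `T`. -/
def Co.eig (C : Co G μ k V) (h : G) {κ : Type} [Fintype κ] (T : κ → κ → k) :
    Submodule k (κ → X →ₘ[μ] V) where
  carrier := {Φ | ∀ j, C.rep h (Φ j) = ∑ i, T i j • Φ i}
  zero_mem' := by simp
  add_mem' := by
    intro Φ Ψ h1 h2 j
    simp only [Pi.add_apply, map_add, h1 j, h2 j, smul_add, Finset.sum_add_distrib]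
  smul_mem' := by
    intro t Φ h1 j
    simp only [Pi.smul_apply, map_smul, h1 j, Finset.smul_sum, smul_comm t]

theorem Co.finite_eig (C : Co G μ k V) {h : G} (hh : Ergodic (fun x : X => h • x) μ) {κ : Type}
    [Fintype κ] (T : κ → κ → k) : FiniteDimensional k (C.eig h T) := by
  refine Module.rank_lt_aleph0_iff.1 (lt_of_le_of_lt (rank_le (n := Module.finrank k (κ → V))
    fun s hs => ?_) (Cardinal.natCast_lt_aleph0))
  let Φ : s → κ → X →ₘ[μ] V := fun a => a.1.1
  have h1 : ∀ᵐ x ∂μ, Function.Injective (evK fun a j => Φ a j x : (s → k) →L[k] (κ → V)) := by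
    refine ae_injective hh (aesm_evK Φ) ?_ fun v hv => ?_
    · have h2 : ∀ a j, ∀ᵐ x ∂μ, C.c h x (Φ a j x) = ∑ i, T i j • Φ a i (h • x) := fun a j => by
        filter_upwards [C.rep_ae h (Φ a j), C.ae_smul h (comb_eq_iff.1 (a.1.2 j))] with x e1 e2
        rw [e1, e2]
      filter_upwards [ae_all_iff.2 fun a => ae_all_iff.2 (h2 a)] with x hx v hv
      funext j
      refine C.injective h x ?_
      have h3 : ∀ i, ∑ a, v a • Φ a i (h • x) = 0 := fun i => by
        rw [← evK_apply (fun a j => Φ a j (h • x)), hv, Pi.zero_apply]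
      rw [evK_apply, map_sum, Pi.zero_apply, map_zero]
      simp only [map_smul, hx, Finset.smul_sum]
      rw [Finset.sum_comm]
      refine Finset.sum_eq_zero fun i _ => ?_
      simp only [smul_comm _ (T i j)]
      rw [← Finset.smul_sum, h3, smul_zero]
    · refine funext (Fintype.linearIndependent_iff.1 hs v (Subtype.ext (funext fun j => ?_)))
      have h2 : (0 : X →ₘ[μ] V) = ∑ a, v a • Φ a j := comb_eq_iff.2 (by
        filter_upwards [hv, AEEqFun.coeFn_zero (μ := μ) (β := V)] with x e1 e2
        rw [e2, ← evK_apply (fun a j => Φ a j x), e1]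
        rfl)
      simpa [Finset.sum_apply] using h2.symm
  obtain ⟨x, hx⟩ := h1.exists
  simpa using LinearMap.finrank_le_finrank_of_injective
    (f := (evK fun a j => Φ a j x : (s → k) →L[k] (κ → V)).toLinearMap) hx

end Pool.Agent.P.MP_d483fb_an.Z.MS
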