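import Pool.Agent.P.MP_d483fb_an.Z.MS.Sec
import Pool.Agent.P.MP_d483fb_an.Z.MS.Abs
import Pool.Agent.P.MP_d483fb_an.Z.Lie.Weyl

/-!
Vanishing of all exponents of a cocycle of small dimension over an ergodic action.
-/

open MeasureTheory Filter Set Topology
open scoped Matrix Matrix.Norms.Operator InnerProductSpace RealInnerProductSpace

set_option linter.unusedSectionVars false

noncomputable section

namespace Pool.Agent.P.MP_d483fb_an.Z.MS

variable {G X : Type} [Group G] [TopologicalSpace G] [IsTopologicalGroup G] [PreconnectedSpace G]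
  [LocallyCompactSpace G] [SecondCountableTopology G] [MeasurableSpace G] [BorelSpace G]
  [TopologicalSpace X] [TopologicalSpace.PseudoMetrizableSpace X] [MeasurableSpace X]
  [BorelSpace X] [MulAction G X] [ContinuousSMul G X] {μ : Measure X} [IsProbabilityMeasure μ]
  {n r : ℕ} (D : Std G n r)

theorem exps_zero {E : Type} [NormedAddCommGroup E] [NormedSpace ℝ E] [FiniteDimensional ℝ E]
    (C : Co G μ ℝ E) (h : GErg G μ) (S : Os.Sys (Euc r) X μ) (hS : ∀ t x, S.act t x = D.a t • x)
    {ι : Type} [Fintype ι] (o : Os.OseA S (fun t x => C.c (D.a t) x) ι)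
    (hv : D.ltV (Module.finrank ℝ E - 1)) (i : ι) : o.lam i = 0 := by
  obtain ⟨t, -, he⟩ := ergodic_wall D h 0
  have h1 : ∀ β ∈ D.roots, o.lam i β = 0 := fun β hβ => by
    obtain ⟨w, -, -, hw⟩ := D.exists_weyl hβ
    refine lam_eq_zero D.toExpData hv (by omega) (gen_of_std D) he C D.a (section_lemma D h) S hS
      o i β w fun j => ?_
    rw [hw, ← Int.cast_smul_eq_zsmul ℝ, Std.refl_smul_self]
  have h2 : (o.lamL i : Euc r →ₗ[ℝ] ℝ) = 0 :=
    LinearMap.ext_on D.span_roots fun β hβ => h1 β hβ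
  exact AddMonoidHom.ext fun s => congrArg (fun L : Euc r →ₗ[ℝ] ℝ => L s) h2

end Pool.Agent.P.MP_d483fb_an.Z.MS
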