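import Pool.Agent.P.MP_d483fb_an.Z.MS.Sec0
import Pool.Agent.P.MP_d483fb_an.Z.Lie.Root1

/-!
The lemma of Margulis on invariant sections.
-/

open MeasureTheory Filter Set Topology
open scoped Matrix Matrix.Norms.Operator InnerProductSpace RealInnerProductSpace

set_option linter.unusedSectionVars false

noncomputable section

namespace Pool.Agent.P.MP_d483fb_an.Z.MS

variable {G X : Type} [Group G] [TopologicalSpace G] [IsTopologicalGroup G] [PreconnectedSpace G]
  {n r : ℕ} (D : Std G n r)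

theorem exists_full_wall (θ : Euc r) : ∃ s, ⟪θ, s⟫ = 0 ∧ D.Full s := by
  obtain ⟨s, h1, h2⟩ := exists_generic_wall θ D.roots
  refine ⟨s, h1, fun γ hγ => ?_⟩
  by_cases h : ∀ c : ℝ, γ ≠ c • θ
  · exact ⟨γ, hγ, Relation.ReflTransGen.refl, h2 γ hγ h⟩
  push Not at h
  obtain ⟨c, hc⟩ := h
  have hc0 : c ≠ 0 := by
    rintro rfl
    exact D.root_ne_zero hγ (by rw [hc, zero_smul])
  obtain ⟨α, hα, h3, h4⟩ := D.rank2 hγ
  refine ⟨α, hα, Relation.ReflTransGen.single ⟨hγ, hα, ?_⟩, h2 α hα fun c' hc' => h4 (c' / c) ?_⟩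
  · rw [real_inner_comm]
    exact h3.ne'
  · rw [hc', hc, smul_smul, div_mul_cancel₀ _ hc0]

/-- The contracted elements generate the group. -/
theorem gen_of_std (D : Std G n r) : SR.Gen G := fun S _ h =>
  D.eq_top_of_le_lie (D.mo_gen (D.lie_le S) (D.lie_isSub S) fun β hβ =>
    D.le_lie inf_le_left fun Y hY => h _ _ (D.tendsto_conj_np (s := β) ⟨hY.1, fun i j hij => by
      rw [show D.lam i - D.lam j = β from hY.2 i j hij]
      exact real_inner_self_pos.2 (D.root_ne_zero hβ)⟩))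

variable [LocallyCompactSpace G] [SecondCountableTopology G] [MeasurableSpace G] [BorelSpace G]
  [TopologicalSpace X] [TopologicalSpace.PseudoMetrizableSpace X] [MeasurableSpace X]
  [BorelSpace X] [MulAction G X] [ContinuousSMul G X] {μ : Measure X} [IsProbabilityMeasure μ]

theorem ergodic_wall (h : GErg G μ) (θ : Euc r) :
    ∃ t : Euc r, ⟪θ, t⟫ = 0 ∧ Ergodic (fun x : X => D.a t • x) μ :=
  (exists_full_wall D θ).imp fun _ hs => ⟨hs.1, h.ergodic_full D hs.2⟩

theorem Co.exists_fin {k V : Type} [NontriviallyNormedField k] [ProperSpace k]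
    [NormedAddCommGroup V] [NormedSpace k V] [FiniteDimensional k V] (C : Co G μ k V)
    (h : GErg G μ) {f : X →ₘ[μ] V} (hf : ∀ t, C.rep (D.a t) f = f) :
    ∃ W : Submodule k (X →ₘ[μ] V), FiniteDimensional k W ∧ f ∈ W ∧
      ∀ g, ∀ w ∈ W, C.rep g w ∈ W :=
  C.exists_fin_of_wall D (exists_full_wall D) h hf

/-- The lemma of Margulis. -/
theorem section_lemma (h : GErg G μ) : SR.MS μ D.a := section_of_wall D (exists_full_wall D) h

end Pool.Agent.P.MP_d483fb_an.Z.MS
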