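import Pool.Agent.P.MP_d483fb_an.Z.MS.Fin
import Pool.Agent.P.MP_d483fb_an.Z.MS.Cont
import Pool.Agent.P.MP_d483fb_an.Z.SR.Defs
import Pool.Agent.P.MP_d483fb_an.Z.Erg.Moore

/-!
The lemma of Margulis on invariant sections, for a group in which every wall has a full element.
-/

open MeasureTheory Filter Set Topology
open scoped Matrix Matrix.Norms.Operator InnerProductSpace RealInnerProductSpace

set_option linter.unusedSectionVars false

noncomputable section

namespace Pool.Agent.P.MP_d483fb_an.Z.MS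

section Abs

variable {G X : Type} [Group G] [TopologicalSpace G] [IsTopologicalGroup G]
  [LocallyCompactSpace G] [SecondCountableTopology G] [MeasurableSpace G] [BorelSpace G]
  [MeasurableSpace X] [MulAction G X] [MeasurableSMul₂ G X] {μ : Measure X}
  [IsProbabilityMeasure μ]

theorem ms_of_fin (hmp : ∀ g : G, MeasurePreserving (fun x : X => g • x) μ μ) {A : Type}
    {a : A → G} (h : ∀ (k V : Type) [NontriviallyNormedField k] [ProperSpace k]
      [NormedAddCommGroup V] [NormedSpace k V] [FiniteDimensional k V] (C : Co G μ k V)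
      (f : X →ₘ[μ] V), (∀ t, C.rep (a t) f = f) → ∃ W : Submodule k (X →ₘ[μ] V),
        FiniteDimensional k W ∧ f ∈ W ∧ ∀ g, ∀ w ∈ W, C.rep g w ∈ W) : SR.MS μ a := by
  intro k V _ _ _ _ _ c hc h1 hmul f hf hinv
  let C : Co G μ k V := ⟨c, hmp, hc, h1, hmul⟩
  have e0 := AEEqFun.coeFn_mk f (hf.aestronglyMeasurable (μ := μ))
  obtain ⟨W, hW, hfW, hG⟩ := h k V C (AEEqFun.mk f hf.aestronglyMeasurable) fun t =>
    C.rep_eq_iff.2 (by
      filter_upwards [hinv t, e0, C.ae_smul (a t) e0] with x e1 e2 e3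
      rw [e2, e3]
      exact e1)
  let b := Module.finBasis k W
  have hli : LinearIndependent k fun j => (b j : X →ₘ[μ] V) :=
    b.linearIndependent.map' W.subtype W.ker_subtype
  have hsp : Submodule.span k (range fun j => (b j : X →ₘ[μ] V)) = W := by
    rw [show (fun j => (b j : X →ₘ[μ] V)) = W.subtype ∘ b from rfl, range_comp,
      ← Submodule.map_span, b.span_eq, Submodule.map_subtype_top]
  obtain ⟨τ, hτ, hrep⟩ := C.exists_tau hli fun g j => hsp.symm ▸ hG g _ (b j).2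
  obtain ⟨v, hv⟩ := (Submodule.mem_span_range_iff_exists_fun k).1 (hsp.symm ▸ hfW)
  refine ⟨_, fun j => (b j : X →ₘ[μ] V), τ, v, hτ, fun j => AEEqFun.stronglyMeasurable _,
    fun g j => ?_, fun u hu => funext (Fintype.linearIndependent_iff.1 hli u ?_), ?_⟩
  · filter_upwards [C.rep_ae g (b j), C.ae_smul g (comb_eq_iff.1 (hrep g j))] with x e1 e2
    exact e1.trans e2
  · refine (comb_eq_iff.2 ?_).symm
    filter_upwards [hu, AEEqFun.coeFn_zero (μ := μ) (β := V)] with x e1 e2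
    rw [e1, e2]
    rfl
  · filter_upwards [e0, comb_eq_iff.1 hv.symm] with x e1 e2
    rw [← e1, e2]

end Abs

variable {G X : Type} [Group G] [TopologicalSpace G] [IsTopologicalGroup G] [PreconnectedSpace G]
  [LocallyCompactSpace G] [SecondCountableTopology G] [MeasurableSpace G] [BorelSpace G]
  [TopologicalSpace X] [TopologicalSpace.PseudoMetrizableSpace X] [MeasurableSpace X]
  [BorelSpace X] [MulAction G X] [ContinuousSMul G X] {μ : Measure X} [IsProbabilityMeasure μ]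
  {n r : ℕ} (D : Std G n r)

theorem GErg.ergodic_full (h : GErg G μ) {s : Euc r} (hs : D.Full s) :
    Ergodic (fun x : X => D.a s • x) μ :=
  ⟨h.mp _, ⟨fun U hU hi => h.erg U hU (D.moore h.mp hs hU hi.eventuallyEq)⟩⟩

theorem commute_ex {Y Z : Mat n} (hY : Y ∈ D.g) (hZ : Z ∈ D.g) (h : ⁅Y, Z⁆ = 0) :
    Commute (D.ex Y) (D.ex Z) := by
  rw [Commute, SemiconjBy, ← D.ex_add_of_commute hY hZ h,
    ← D.ex_add_of_commute hZ hY (by rwa [Ring.lie_def, sub_eq_zero, eq_comm, ← sub_eq_zero]), add_comm]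

theorem br_wall {θ s : Euc r} (h : ⟪θ, s⟫ = 0) {Y : Mat n} (hY : Y ∈ D.gr θ) :
    ⁅Y, D.dg s⁆ = 0 := by
  suffices h1 : ⁅D.dg s, Y⁆ = 0 by rwa [Ring.lie_def, sub_eq_zero, eq_comm, ← sub_eq_zero]
  ext i j
  rw [D.mo_br, Matrix.zero_apply]
  by_cases h0 : Y i j = 0
  · rw [h0, mul_zero]
  · rw [show D.lam i - D.lam j = θ from hY.2 i j h0, h, zero_mul]

theorem commute_a (t t' : Euc r) : Commute (D.a t) (D.a t') :=
  commute_ex D (D.dg_mem t) (D.dg_mem t') (by
    simp [Ring.lie_def, Std.dg_apply, Matrix.diagonal_mul_diagonal, mul_comm])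

theorem Co.exists_fin_of_wall (hw : ∀ θ : Euc r, ∃ s, ⟪θ, s⟫ = 0 ∧ D.Full s) {k V : Type}
    [NontriviallyNormedField k] [ProperSpace k] [NormedAddCommGroup V] [NormedSpace k V]
    [FiniteDimensional k V] (C : Co G μ k V) (h : GErg G μ) {f : X →ₘ[μ] V}
    (hf : ∀ t, C.rep (D.a t) f = f) : ∃ W : Submodule k (X →ₘ[μ] V), FiniteDimensional k W ∧
      f ∈ W ∧ ∀ g, ∀ w ∈ W, C.rep g w ∈ W := by
  choose σ h1 h2 using hw
  let e := D.wts.equivFin.symm
  refine C.exists_fin_abs (commute_a D) (t := fun i => σ (e i))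
    (fun i => h.ergodic_full D (h2 _)) (mem_of_superset (D.prod_nhds (fun i => D.gr (e i))
      (fun i => inf_le_left) (fun Y hY => ?_) one_pos) ?_) hf
  · rw [← D.mo_sum Y]
    refine Submodule.sum_mem _ fun β hβ => Submodule.mem_iSup_of_mem (e.symm ⟨β, hβ⟩) ?_
    rw [Equiv.apply_symm_apply]
    exact D.mo_pr β hY
  · rintro _ ⟨Y, hY, rfl⟩
    exact ⟨fun i => D.ex (Y i), fun i =>
      commute_ex D (hY i).1.1 (D.dg_mem _) (br_wall D (h1 _) (hY i).1), rfl⟩

theorem section_of_wall (hw : ∀ θ : Euc r, ∃ s, ⟪θ, s⟫ = 0 ∧ D.Full s) (h : GErg G μ) :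
    SR.MS μ D.a :=
  ms_of_fin h.mp fun _ _ _ _ _ _ _ C _ hf => C.exists_fin_of_wall D hw h hf

end Pool.Agent.P.MP_d483fb_an.Z.MS
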